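import Pool.Agent.H295R2.MK.Defs

/-!
Task R4 (WinC) of project MK: the mean square of the test function `C`.
-/

set_option autoImplicit false

namespace Pool.Agent.H578R2.MKR4

open Finset Filter Topology MeasureTheory Complex
open Pool.Agent.H306R2 H295MK

noncomputable section

lemma fr_cont (a b : ℕ) : Continuous (fr a b) := by
  unfold H295MK.fr
  fun_prop

lemma fr_mul (h l h' l' : ℕ) (hh : 1 ≤ h) (hl : 1 ≤ l) (hh' : 1 ≤ h') (hl' : 1 ≤ l') (t : ℝ) :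
    fr h l t * (starRingEnd ℂ) (fr h' l' t) = fr (h * l') (l * h') t := by
  have e1 : (h : ℝ) ≠ 0 := by positivity
  have e2 : (l : ℝ) ≠ 0 := by positivity
  have e3 : (h' : ℝ) ≠ 0 := by positivity
  have e4 : (l' : ℝ) ≠ 0 := by positivity
  unfold H295MK.fr
  rw [← Complex.exp_conj, ← Complex.exp_add]
  congr 1
  rw [map_mul, Complex.conj_ofReal, Complex.conj_I, Nat.cast_mul, Nat.cast_mul,
    Real.log_mul e2 e3, Real.log_mul e1 e4]
  push_cast
  ring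

lemma sp_mem {X : ℝ} {b : ℕ × ℕ} (hb : b ∈ SP X) (hX : 0 ≤ X) :
    1 ≤ b.1 ∧ 1 ≤ b.2 ∧ (b.1 : ℝ) ≤ X ∧ (b.2 : ℝ) ≤ X ∧ Nat.Coprime b.1 b.2 := by
  unfold SP at hb
  rw [mem_filter, mem_product, mem_Icc, mem_Icc] at hb
  obtain ⟨⟨⟨h1, h2⟩, h3, h4⟩, h5⟩ := hb
  exact ⟨h1, h3, (Nat.le_floor_iff hX).1 h2, (Nat.le_floor_iff hX).1 h4, h5⟩

lemma cop {b b' : ℕ × ℕ} (h1 : 1 ≤ b.1) (hc : Nat.Coprime b.1 b.2)
    (hc' : Nat.Coprime b'.1 b'.2) (h : b.1 * b'.2 = b.2 * b'.1) : b = b' := by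
  have d1 : b.1 ∣ b'.1 := hc.dvd_of_dvd_mul_left (Dvd.intro _ h)
  have d2 : b'.1 ∣ b.1 := hc'.dvd_of_dvd_mul_right (Dvd.intro_left _ h.symm)
  have e1 : b.1 = b'.1 := Nat.dvd_antisymm d1 d2
  have e2 : b.2 = b'.2 := by
    rw [← e1, mul_comm b.2] at h
    exact (Nat.eq_of_mul_eq_mul_left (by omega) h).symm
  exact Prod.ext e1 e2

lemma cc_le (j : ℕ) (X T : ℝ) (hX : 1 ≤ X) (hXT : X ^ 2 ≤ T) (b : ℕ × ℕ) (hb : b ∈ SP X) :
    0 ≤ cc j X b ∧ cc j X b ≤ T ^ (2 * j + 1) := by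
  obtain ⟨h1, h2, h3, h4, _⟩ := sp_mem hb (by linarith)
  have hT1 : 1 ≤ T := by nlinarith
  have hXT' : X ≤ T := by nlinarith
  have hdv : ∀ n : ℕ, 0 ≤ dv (j : ℝ) n := fun n => dv_nonneg (Nat.cast_nonneg j) n
  have hdv' : ∀ n : ℕ, dv (j : ℝ) n ≤ (n : ℝ) ^ j := by
    intro n
    have := PB_dA (α := (j : ℝ)) (Nat.cast_nonneg j) (J := j) le_rfl n
    rw [dA_apply] at this
    exact (le_abs_self _).trans this
  have hb1 : (1 : ℝ) ≤ b.1 := by exact_mod_cast h1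
  have hb2 : (1 : ℝ) ≤ b.2 := by exact_mod_cast h2
  have hs : 1 ≤ Real.sqrt ((b.1 : ℝ) * b.2) := by
    rw [Real.one_le_sqrt]; nlinarith
  have hterm : ∀ r ∈ Icc 1 ⌊X⌋₊, 0 ≤ (if ((b.2 * r : ℕ) : ℝ) ≤ X then
      dv j (b.1 * r) * dv j (b.2 * r) / (r : ℝ) else 0) ∧
      (if ((b.2 * r : ℕ) : ℝ) ≤ X then dv j (b.1 * r) * dv j (b.2 * r) / (r : ℝ) else 0) ≤
        T ^ (2 * j) := by
    intro r hr
    rw [mem_Icc] at hr
    have hr1 : (1 : ℝ) ≤ r := by exact_mod_cast hr.1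
    have hr2 : (r : ℝ) ≤ X := (Nat.le_floor_iff (by linarith)).1 hr.2
    split_ifs
    · refine ⟨div_nonneg (mul_nonneg (hdv _) (hdv _)) (by positivity), ?_⟩
      have hm1 : ((b.1 * r : ℕ) : ℝ) ≤ T := by
        push_cast
        calc (b.1 : ℝ) * r ≤ X * X := mul_le_mul h3 hr2 (by positivity) (by linarith)
          _ ≤ T := by nlinarith
      have hm2 : ((b.2 * r : ℕ) : ℝ) ≤ T := by
        push_cast
        calc (b.2 : ℝ) * r ≤ X * X := mul_le_mul h4 hr2 (by positivity) (by linarith)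
          _ ≤ T := by nlinarith
      calc dv j (b.1 * r) * dv j (b.2 * r) / (r : ℝ) ≤ dv j (b.1 * r) * dv j (b.2 * r) :=
            div_le_self (mul_nonneg (hdv _) (hdv _)) hr1
        _ ≤ T ^ j * T ^ j := by
            apply mul_le_mul _ _ (hdv _) (by positivity)
            · exact (hdv' _).trans (pow_le_pow_left₀ (Nat.cast_nonneg _) hm1 j)
            · exact (hdv' _).trans (pow_le_pow_left₀ (Nat.cast_nonneg _) hm2 j)
        _ = T ^ (2 * j) := by rw [← pow_add]; congr 1; ring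
    · exact ⟨le_rfl, by positivity⟩
  unfold cc
  have hS0 : 0 ≤ ∑ r ∈ Icc 1 ⌊X⌋₊, (if ((b.2 * r : ℕ) : ℝ) ≤ X then
      dv j (b.1 * r) * dv j (b.2 * r) / (r : ℝ) else 0) := sum_nonneg fun r hr => (hterm r hr).1
  refine ⟨div_nonneg hS0 (Real.sqrt_nonneg _), ?_⟩
  refine (div_le_self hS0 hs).trans ?_
  calc ∑ r ∈ Icc 1 ⌊X⌋₊, (if ((b.2 * r : ℕ) : ℝ) ≤ X then
      dv j (b.1 * r) * dv j (b.2 * r) / (r : ℝ) else 0) ≤ ∑ r ∈ Icc 1 ⌊X⌋₊, T ^ (2 * j) :=
        sum_le_sum fun r hr => (hterm r hr).2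
    _ = (⌊X⌋₊ : ℝ) * T ^ (2 * j) := by rw [sum_const, Nat.card_Icc, nsmul_eq_mul]; simp
    _ ≤ T * T ^ (2 * j) := by
        apply mul_le_mul_of_nonneg_right _ (by positivity)
        exact (Nat.floor_le (by linarith)).trans hXT'
    _ = T ^ (2 * j + 1) := by rw [pow_succ]; ring

lemma sp_card (X T : ℝ) (hX : 1 ≤ X) (hXT : X ^ 2 ≤ T) : ((SP X).card : ℝ) ≤ T := by
  have h1 : (SP X).card ≤ ⌊X⌋₊ * ⌊X⌋₊ := by
    unfold SP
    refine (card_filter_le _ _).trans ?_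
    rw [card_product, Nat.card_Icc]
    simp
  have h2 : ((SP X).card : ℝ) ≤ (⌊X⌋₊ : ℝ) * ⌊X⌋₊ := by exact_mod_cast h1
  have h3 : (⌊X⌋₊ : ℝ) ≤ X := Nat.floor_le (by linarith)
  have h4 : (0 : ℝ) ≤ ⌊X⌋₊ := Nat.cast_nonneg _
  nlinarith

lemma normsq (j : ℕ) (X : ℝ) (hX : 0 ≤ X) (t : ℝ) : ((‖CC j X t‖ ^ 2 : ℝ) : ℂ) =
    ∑ b ∈ SP X, ∑ b' ∈ SP X, ((cc j X b * cc j X b' : ℝ) : ℂ) *
      fr (b.1 * b'.2) (b.2 * b'.1) t := by
  have h1 : ∀ z : ℂ, (((‖z‖ ^ 2 : ℝ)) : ℂ) = z * (starRingEnd ℂ) z := by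
    intro z
    rw [Complex.mul_conj, Complex.normSq_eq_norm_sq]
  rw [h1]
  unfold CC
  rw [map_sum, sum_mul_sum]
  refine sum_congr rfl fun b hb => sum_congr rfl fun b' hb' => ?_
  obtain ⟨p1, p2, _⟩ := sp_mem hb hX
  obtain ⟨q1, q2, _⟩ := sp_mem hb' hX
  rw [map_mul, Complex.conj_ofReal, ← fr_mul _ _ _ _ p1 p2 q1 q2]
  push_cast
  ring

lemma win_sum (η δ T τ : ℝ) (S : Finset (ℕ × ℕ)) (c : ℕ × ℕ → ℕ × ℕ → ℂ)
    (G : ℕ × ℕ → ℕ × ℕ → ℝ → ℂ) (hG : ∀ b b', Continuous (G b b')) :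
    win η δ T τ (fun t => ∑ b ∈ S, ∑ b' ∈ S, c b b' * G b b' t) =
      ∑ b ∈ S, ∑ b' ∈ S, c b b' * win η δ T τ (G b b') := by
  unfold win
  have hg : Continuous (fun t => (gw τ (Ht η T) t : ℂ)) :=
    Complex.continuous_ofReal.comp (gw_continuous _ _)
  have hcong : ∀ t, (∑ b ∈ S, ∑ b' ∈ S, c b b' * G b b' t) * (gw τ (Ht η T) t : ℂ) =
      ∑ b ∈ S, ∑ b' ∈ S, c b b' * (G b b' t * (gw τ (Ht η T) t : ℂ)) := by
    intro t
    rw [sum_mul]
    refine sum_congr rfl fun b _ => ?_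
    rw [sum_mul]
    refine sum_congr rfl fun b' _ => ?_
    ring
  simp_rw [hcong]
  rw [intervalIntegral.integral_finsetSum]
  · refine sum_congr rfl fun b _ => ?_
    rw [intervalIntegral.integral_finsetSum]
    · refine sum_congr rfl fun b' _ => ?_
      rw [intervalIntegral.integral_const_mul]
    · intro b' _
      exact (continuous_const.mul ((hG b b').mul hg)).intervalIntegrable _ _
  · intro b _
    exact (continuous_finsetSum _ fun b' _ =>
      continuous_const.mul ((hG b b').mul hg)).intervalIntegrable _ _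

/-- R4 -/
theorem winC (h : TwO) : WinC := by
  intro j η δ _ hη hη2 hδ hδ1
  filter_upwards [h (4 * j + 4) η δ hη hη2 hδ hδ1, eventually_ge_atTop 1] with T hT hT1 τ hτ1 hτ2
  have hT0 : 0 < T := by linarith
  have hY1 : 1 ≤ Yt η T := one_le_Yt hη2 hT1
  have hYT : Yt η T ≤ T := Yt_le hη hT1
  set X : ℝ := Yt η T ^ (1 / 2 : ℝ) with hX
  have hX2 : X ^ 2 = Yt η T := by
    rw [hX, ← Real.rpow_natCast, ← Real.rpow_mul (by linarith)]
    norm_num
  have hX1 : 1 ≤ X := Real.one_le_rpow hY1 (by norm_num)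
  have hXT : X ^ 2 ≤ T := by rw [hX2]; exact hYT
  have hcast : ((winR η δ T τ (fun t => ‖CC j X t‖ ^ 2) : ℝ) : ℂ) =
      ∑ b ∈ SP X, ∑ b' ∈ SP X, ((cc j X b * cc j X b' : ℝ) : ℂ) *
        win η δ T τ (fun t => fr (b.1 * b'.2) (b.2 * b'.1) t) := by
    rw [← win_sum η δ T τ (SP X) (fun b b' => ((cc j X b * cc j X b' : ℝ) : ℂ))
      (fun b b' => fr (b.1 * b'.2) (b.2 * b'.1)) (fun b b' => fr_cont _ _)]
    unfold winR win
    rw [← intervalIntegral.integral_ofReal]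
    apply intervalIntegral.integral_congr
    intro t _
    simp only
    rw [Complex.ofReal_mul, normsq j X (by linarith)]
  have hEE : ((EE j X : ℝ) : ℂ) = ∑ b ∈ SP X, ∑ b' ∈ SP X, ((cc j X b * cc j X b' : ℝ) : ℂ) *
      (if b.1 * b'.2 = b.2 * b'.1 then 1 else 0 : ℂ) := by
    unfold EE
    rw [Complex.ofReal_sum]
    refine sum_congr rfl fun b hb => ?_
    obtain ⟨p1, p2, _, _, p5⟩ := sp_mem hb (by linarith)
    rw [sum_eq_single b]
    · rw [if_pos (mul_comm _ _)]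
      push_cast
      ring
    · intro b' hb' hne
      obtain ⟨q1, q2, _, _, q5⟩ := sp_mem hb' (by linarith)
      rw [if_neg, mul_zero]
      intro heq
      exact hne (cop p1 p5 q5 heq).symm
    · intro hb'; exact absurd hb hb'
  have hdiff : ‖((winR η δ T τ (fun t => ‖CC j X t‖ ^ 2) - EE j X : ℝ) : ℂ)‖ ≤ 1 := by
    rw [Complex.ofReal_sub, hcast, hEE, ← sum_sub_distrib]
    refine (norm_sum_le _ _).trans ?_
    have hb : ∀ b ∈ SP X, ‖∑ b' ∈ SP X, ((cc j X b * cc j X b' : ℝ) : ℂ) *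
        win η δ T τ (fun t => fr (b.1 * b'.2) (b.2 * b'.1) t) -
        ∑ b' ∈ SP X, ((cc j X b * cc j X b' : ℝ) : ℂ) *
        (if b.1 * b'.2 = b.2 * b'.1 then 1 else 0 : ℂ)‖ ≤ T * (T ^ (4 * j + 2) / T ^ (4 * j + 4)) := by
      intro b hb
      rw [← sum_sub_distrib]
      refine (norm_sum_le _ _).trans ?_
      calc _ ≤ ∑ b' ∈ SP X, T ^ (4 * j + 2) / T ^ (4 * j + 4) := by
            refine sum_le_sum fun b' hb' => ?_
            rw [← mul_sub, norm_mul, Complex.norm_real, Real.norm_eq_abs]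
            obtain ⟨p1, p2, p3, p4, _⟩ := sp_mem hb (by linarith)
            obtain ⟨q1, q2, q3, q4, _⟩ := sp_mem hb' (by linarith)
            obtain ⟨c1, c2⟩ := cc_le j X T hX1 hXT b hb
            obtain ⟨d1, d2⟩ := cc_le j X T hX1 hXT b' hb'
            have hab : ((b.1 * b'.2 : ℕ) : ℝ) ≤ X ^ 2 := by
              push_cast
              rw [sq]
              exact mul_le_mul p3 q4 (Nat.cast_nonneg _) (by linarith)
            have hba : ((b.2 * b'.1 : ℕ) : ℝ) ≤ X ^ 2 := by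
              push_cast
              rw [sq]
              exact mul_le_mul p4 q3 (Nat.cast_nonneg _) (by linarith)
            have hw := hT τ hτ1 hτ2 (b.1 * b'.2) (b.2 * b'.1) (Nat.mul_pos p1 q2)
              (hab.trans hXT) (Nat.mul_pos p2 q1) (by rw [← hX2]; exact hba)
            rw [abs_of_nonneg (mul_nonneg c1 d1), div_eq_mul_one_div]
            apply mul_le_mul _ hw (norm_nonneg _) (by positivity)
            calc cc j X b * cc j X b' ≤ T ^ (2 * j + 1) * T ^ (2 * j + 1) :=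
                  mul_le_mul c2 d2 d1 (by positivity)
              _ = T ^ (4 * j + 2) := by rw [← pow_add]; congr 1; ring
        _ = (SP X).card * (T ^ (4 * j + 2) / T ^ (4 * j + 4)) := by rw [sum_const, nsmul_eq_mul]
        _ ≤ _ := mul_le_mul_of_nonneg_right (sp_card X T hX1 hXT) (by positivity)
    calc _ ≤ ∑ b ∈ SP X, T * (T ^ (4 * j + 2) / T ^ (4 * j + 4)) := sum_le_sum hb
      _ = (SP X).card * (T * (T ^ (4 * j + 2) / T ^ (4 * j + 4))) := by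
          rw [sum_const, nsmul_eq_mul]
      _ ≤ T * (T * (T ^ (4 * j + 2) / T ^ (4 * j + 4))) :=
          mul_le_mul_of_nonneg_right (sp_card X T hX1 hXT) (by positivity)
      _ = 1 := by
          have : T ^ (4 * j + 4) = T ^ (4 * j + 2) * T * T := by ring
          rw [this]
          have hp : T ^ (4 * j + 2) ≠ 0 := by positivity
          field_simp
  rw [Complex.norm_real, Real.norm_eq_abs] at hdiff
  have := (abs_le.1 hdiff).2
  linarith

end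

end Pool.Agent.H578R2.MKR4
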