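import Pool.Agent.H923R2.FZ.Stubs1

/-! Task R1a (helper578): stable rank one passes to `{b : k b = b = b k} + ℂ`. -/

set_option autoImplicit false

noncomputable section

namespace Pool.Agent.H923R2.FZ.T_R1a

open Pool.Agent.H923R2.FP Pool.Agent.H923R2.FZ

theorem swap {R : Type*} [Ring R] (a b : R) (h : IsUnit (1 + a * b)) : IsUnit (1 + b * a) := by
  obtain ⟨w, hw⟩ := h
  have h1 : (1 + a * b) * (↑w⁻¹ : R) = 1 := by rw [← hw]; exact w.mul_inv
  have h2 : (↑w⁻¹ : R) * (1 + a * b) = 1 := by rw [← hw]; exact w.inv_mul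
  refine ⟨⟨1 + b * a, 1 - b * (↑w⁻¹ : R) * a, ?_, ?_⟩, rfl⟩
  · have e : (1 + b * a) * (1 - b * ↑w⁻¹ * a) = 1 + b * a - b * ((1 + a * b) * ↑w⁻¹) * a := by
      noncomm_ring
    rw [e, h1]; noncomm_ring
  · have e : (1 - b * ↑w⁻¹ * a) * (1 + b * a) = 1 + b * a - b * (↑w⁻¹ * (1 + a * b)) * a := by
      noncomm_ring
    rw [e, h2]; noncomm_ring

/-- the function `min(1, t/d)` for `t ≥ 0` -/
def Fd (d t : ℝ) : ℝ := t * (max d t)⁻¹

theorem Fd_cont (d : ℝ) (hd : 0 < d) : Continuous (Fd d) := by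
  unfold Fd
  apply continuous_id.mul
  apply Continuous.inv₀ (continuous_const.max continuous_id)
  intro t
  exact (lt_of_lt_of_le hd (le_max_left _ _)).ne'

theorem G_cont (d : ℝ) (hd : 0 < d) : Continuous (fun t : ℝ => (max d t)⁻¹) := by
  apply Continuous.inv₀ (continuous_const.max continuous_id)
  intro t
  exact (lt_of_lt_of_le hd (le_max_left _ _)).ne'

theorem Fd_bd (d t : ℝ) (hd : 0 < d) (ht : 0 ≤ t) : 0 ≤ Fd d t ∧ Fd d t ≤ 1 := by
  unfold Fd
  have h0 : 0 < max d t := lt_of_lt_of_le hd (le_max_left _ _)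
  refine ⟨by positivity, ?_⟩
  rw [← div_eq_mul_inv, div_le_one h0]
  exact le_max_right _ _

theorem approx {B : Type} [CStarAlgebra B] (k x : B) (hk : k * x = x) (d : ℝ) (hd : 0 < d) :
    ∃ c : B, k * c = c ∧ ‖c‖ ≤ 1 ∧ ‖(1 - c * c) * x‖ ^ 2 ≤ d := by
  set h : B := x * star x with hh
  have hsa : IsSelfAdjoint h := IsSelfAdjoint.mul_star_self x
  have hnn : ∀ t ∈ spectrum ℝ h, 0 ≤ t := by
    have := spectrum_star_mul_self_nonneg (b := star x)
    rw [star_star] at this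
    exact this
  have hF := Fd_cont d hd
  have hcc : cfc (fun t => Fd d t * Fd d t) h = cfc (Fd d) h * cfc (Fd d) h :=
    cfc_mul (Fd d) (Fd d) h hF.continuousOn hF.continuousOn
  have h1cc : 1 - cfc (Fd d) h * cfc (Fd d) h = cfc (fun t => 1 - Fd d t * Fd d t) h := by
    rw [cfc_sub (fun _ => (1 : ℝ)) (fun t => Fd d t * Fd d t) h continuousOn_const
      (hF.mul hF).continuousOn, hcc, cfc_const_one ℝ h]
  have hid : h = cfc (fun t : ℝ => t) h := (cfc_id' ℝ h).symm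
  refine ⟨cfc (Fd d) h, ?_, ?_, ?_⟩
  · have e : cfc (Fd d) h = h * cfc (fun t : ℝ => (max d t)⁻¹) h := by
      have := cfc_mul (fun t : ℝ => t) (fun t : ℝ => (max d t)⁻¹) h continuousOn_id
        (G_cont d hd).continuousOn
      rw [cfc_id' ℝ h] at this
      exact this
    have hkh : k * h = h := by rw [hh, ← mul_assoc, hk]
    rw [e, ← mul_assoc, hkh]
  · apply norm_cfc_le zero_le_one
    intro t ht
    obtain ⟨b1, b2⟩ := Fd_bd d t hd (hnn t ht)
    rw [Real.norm_eq_abs, abs_of_nonneg b1]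
    exact b2
  · have hsc : star (1 - cfc (Fd d) h * cfc (Fd d) h) = 1 - cfc (Fd d) h * cfc (Fd d) h := by
      rw [h1cc]
      exact (cfc_predicate (fun t => 1 - Fd d t * Fd d t) h).star_eq
    have hmain : (1 - cfc (Fd d) h * cfc (Fd d) h) * h * (1 - cfc (Fd d) h * cfc (Fd d) h) =
        cfc (fun t => (1 - Fd d t * Fd d t) * t * (1 - Fd d t * Fd d t)) h := by
      have c1 : Continuous (fun t => 1 - Fd d t * Fd d t) := continuous_const.sub (hF.mul hF)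
      rw [cfc_mul (fun t => (1 - Fd d t * Fd d t) * t) (fun t => 1 - Fd d t * Fd d t) h
        (c1.mul continuous_id).continuousOn c1.continuousOn,
        cfc_mul (fun t => 1 - Fd d t * Fd d t) (fun t => t) h c1.continuousOn continuousOn_id,
        cfc_id' ℝ h, ← h1cc]
    have hn : ‖(1 - cfc (Fd d) h * cfc (Fd d) h) * x‖ ^ 2 =
        ‖(1 - cfc (Fd d) h * cfc (Fd d) h) * h * (1 - cfc (Fd d) h * cfc (Fd d) h)‖ := by
      rw [sq, ← CStarRing.norm_self_mul_star, star_mul, hsc, hh]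
      congr 1
      simp only [mul_assoc]
    rw [hn, hmain]
    apply norm_cfc_le hd.le
    intro t ht
    have ht0 := hnn t ht
    obtain ⟨b1, b2⟩ := Fd_bd d t hd ht0
    rcases le_total t d with h3 | h3
    · have e1 : 0 ≤ 1 - Fd d t * Fd d t := by nlinarith
      have e2 : 1 - Fd d t * Fd d t ≤ 1 := by nlinarith
      rw [Real.norm_eq_abs, abs_of_nonneg (by positivity)]
      have e3 : (1 - Fd d t * Fd d t) * t ≤ t := by nlinarith
      have e4 : 0 ≤ (1 - Fd d t * Fd d t) * t := by positivity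
      nlinarith
    · have e1 : Fd d t = 1 := by
        unfold Fd
        rw [max_eq_right h3]
        exact mul_inv_cancel₀ (by linarith)
      rw [e1]
      simp
      exact hd.le

theorem t_R1a : S_R1a := by
  intro B _ hSR k x _ hkx hxk l ε hl hε
  obtain ⟨c, hkc, hcn, hcx⟩ := approx k x hkx ((ε / 4) ^ 2) (by positivity)
  have hcx' : ‖(1 - c * c) * x‖ ≤ ε / 4 := by
    apply le_of_sq_le_sq _ (by positivity)
    exact hcx
  set r : ℝ := min (1 / 2) (ε / (8 * (‖x‖ + 1))) with hr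
  have hr0 : 0 < r := lt_min (by norm_num) (by positivity)
  have hr1 : r ≤ 1 / 2 := min_le_left _ _
  have hr2 : r * ‖x‖ ≤ ε / 8 := by
    have h1 : r ≤ ε / (8 * (‖x‖ + 1)) := min_le_right _ _
    have h2 : ε / (8 * (‖x‖ + 1)) * ‖x‖ ≤ ε / 8 := by
      rw [div_mul_eq_mul_div, div_le_div_iff₀ (by positivity) (by norm_num)]
      nlinarith [norm_nonneg x]
    exact (mul_le_mul_of_nonneg_right h1 (norm_nonneg x)).trans h2
  obtain ⟨z, hz, hzn⟩ := hSR ((l : ℂ) • 1 + c * x * c) (l * r) (by positivity)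
  have hlC : (l : ℂ) ≠ 0 := by exact_mod_cast hl.ne'
  set t : B := ((l : ℂ)⁻¹) • ((l : ℂ) • 1 + c * x * c - z) with ht
  have htn : ‖t‖ < r := by
    rw [ht, norm_smul, norm_inv, Complex.norm_real, Real.norm_eq_abs, abs_of_pos hl]
    rw [inv_mul_lt_iff₀ hl]
    exact hzn
  have ht1 : ‖t‖ < 1 := by linarith
  set u : Bˣ := Units.oneSub t ht1 with hu
  have huv : (u : B) = 1 - t := rfl
  have hz' : ((l : ℂ)⁻¹) • z = (u : B) + c * (((l : ℂ)⁻¹) • x) * c := by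
    rw [huv, ht, smul_sub, smul_add, smul_smul, inv_mul_cancel₀ hlC, one_smul]
    simp only [mul_smul_comm, smul_mul_assoc]
    abel
  have hzu : IsUnit (((l : ℂ)⁻¹) • z) := by
    have := hz.smul (Units.mk0 ((l : ℂ)⁻¹) (inv_ne_zero hlC))
    exact this
  have h1 : IsUnit (1 + ((↑u⁻¹ : B) * (c * (((l : ℂ)⁻¹) • x))) * c) := by
    have e : 1 + ((↑u⁻¹ : B) * (c * (((l : ℂ)⁻¹) • x))) * c = (↑u⁻¹ : B) * (((l : ℂ)⁻¹) • z) := by
      rw [hz', mul_add, Units.inv_mul]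
      simp only [mul_assoc]
    rw [e]
    exact (Units.isUnit u⁻¹).mul hzu
  have h2 : IsUnit (1 + c * ((↑u⁻¹ : B) * (c * (((l : ℂ)⁻¹) • x)))) := swap _ _ h1
  have hy : (l : ℂ) • (1 + c * ((↑u⁻¹ : B) * (c * (((l : ℂ)⁻¹) • x)))) =
      (l : ℂ) • 1 + c * ((↑u⁻¹ : B) * (c * x)) := by
    rw [smul_add]
    congr 1
    simp only [mul_smul_comm]
    rw [smul_smul, mul_inv_cancel₀ hlC, one_smul]
  refine ⟨(l : ℂ) • 1 + c * ((↑u⁻¹ : B) * (c * x)), ?_, ?_, ?_, ?_⟩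
  · rw [← hy]
    exact h2.smul (Units.mk0 (l : ℂ) hlC)
  · have e : (1 - k) * c = 0 := by rw [sub_mul, one_mul, hkc, sub_self]
    rw [mul_add, ← mul_assoc, e, zero_mul, add_zero, mul_smul_comm, mul_one]
  · have e : x * (1 - k) = 0 := by rw [mul_sub, mul_one, hxk, sub_self]
    have e2 : c * ((↑u⁻¹ : B) * (c * x)) * (1 - k) = c * ((↑u⁻¹ : B) * (c * (x * (1 - k)))) := by
      simp only [mul_assoc]
    rw [add_mul, e2, e, mul_zero, mul_zero, mul_zero, add_zero, smul_mul_assoc, one_mul]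
  · have hinv : (↑u⁻¹ : B) - 1 = t * ((↑u⁻¹ : B) - 1) + t := by
      have : (1 - t) * (↑u⁻¹ : B) = 1 := by rw [← huv]; exact u.mul_inv
      have e : (↑u⁻¹ : B) = 1 + t * ↑u⁻¹ := by
        rw [sub_mul, one_mul] at this
        rw [← this]; abel
      calc (↑u⁻¹ : B) - 1 = t * ↑u⁻¹ := by nth_rewrite 1 [e]; abel
        _ = t * ((↑u⁻¹ : B) - 1) + t := by rw [mul_sub, mul_one]; abel
    have hinvn : ‖(↑u⁻¹ : B) - 1‖ ≤ 2 * r := by
      have h3 : ‖(↑u⁻¹ : B) - 1‖ ≤ ‖t‖ * ‖(↑u⁻¹ : B) - 1‖ + ‖t‖ := by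
        calc ‖(↑u⁻¹ : B) - 1‖ = ‖t * ((↑u⁻¹ : B) - 1) + t‖ := by rw [← hinv]
          _ ≤ ‖t * ((↑u⁻¹ : B) - 1)‖ + ‖t‖ := norm_add_le _ _
          _ ≤ _ := by
            have := norm_mul_le t ((↑u⁻¹ : B) - 1)
            linarith
      nlinarith [norm_nonneg ((↑u⁻¹ : B) - 1), norm_nonneg t]
    have e : (l : ℂ) • (1 : B) + c * ((↑u⁻¹ : B) * (c * x)) - ((l : ℂ) • 1 + x) =
        c * (((↑u⁻¹ : B) - 1) * (c * x)) - (1 - c * c) * x := by
      noncomm_ring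
    rw [e]
    have h4 : ‖c * (((↑u⁻¹ : B) - 1) * (c * x))‖ ≤ ε / 4 := by
      calc ‖c * (((↑u⁻¹ : B) - 1) * (c * x))‖ ≤ ‖c‖ * (‖(↑u⁻¹ : B) - 1‖ * (‖c‖ * ‖x‖)) := by
            refine (norm_mul_le _ _).trans (mul_le_mul_of_nonneg_left ?_ (norm_nonneg _))
            refine (norm_mul_le _ _).trans (mul_le_mul_of_nonneg_left ?_ (norm_nonneg _))
            exact norm_mul_le _ _
        _ ≤ 1 * ((2 * r) * (1 * ‖x‖)) := by gcongr
        _ ≤ ε / 4 := by linarith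
    calc ‖c * (((↑u⁻¹ : B) - 1) * (c * x)) - (1 - c * c) * x‖ ≤
        ‖c * (((↑u⁻¹ : B) - 1) * (c * x))‖ + ‖(1 - c * c) * x‖ := norm_sub_le _ _
      _ ≤ ε / 4 + ε / 4 := add_le_add h4 hcx'
      _ < ε := by linarith

end Pool.Agent.H923R2.FZ.T_R1a
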