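import Pool.Agent.H578R2.Descent

/-!
The bottom of the descent, polynomial bounds, and the stage lemma.
-/

namespace Pool.Agent.H578R2

theorem no_cert {φ : Bool → List Bool → Set (List Bool) → Prop} (hφ : Loc φ)
    {O : Set (List Bool)} (hO : Legal φ O) {t₀ : List Bool} {C : Set (List Bool) → Prop} {P : ℕ}
    (hP : 2 * P + 1 ≤ 2 ^ t₀.length)
    (hC : Cert (WW φ O t₀) C P (2 * t₀.length + 3)) (hpol : Pol (WW φ O t₀) t₀ C) : False := by
  classical
  -- the worlds with prescribed facts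
  let base : Set (List Bool) → Set (List Bool) → Set (List Bool) := fun X Y =>
    {x | (x ∈ O ∧ ¬ ∃ (b : Bool) (z : List Bool), z.length = t₀.length ∧
      x = code (true, b) t₀ z) ∨ (∃ z ∈ X, z.length = t₀.length ∧ x = code (true, false) t₀ z) ∨
      (∃ z ∈ Y, z.length = t₀.length ∧ x = code (true, true) t₀ z)}
  have hbase : ∀ X Y, Agree (2 * t₀.length + 2) O (base X Y) := by
    intro X Y x hx
    constructor
    · intro h
      refine Or.inl ⟨h, ?_⟩
      rintro ⟨b, z, hz, rfl⟩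
      rw [code_length _ _ _ hz] at hx
      omega
    · rintro (h | ⟨z, hz, hz1, rfl⟩ | ⟨z, hz, hz1, rfl⟩)
      · exact h.1
      · rw [code_length _ _ _ hz1] at hx
        omega
      · rw [code_length _ _ _ hz1] at hx
        omega
  have hbase2 : ∀ X Y (b : Bool) (t z : List Bool), z.length = t.length →
      (code (false, b) t z ∈ base X Y ↔ code (false, b) t z ∈ O) := by
    intro X Y b t z hz
    constructor
    · rintro (h | ⟨z', hz', hz1, h⟩ | ⟨z', hz', hz1, h⟩)
      · exact h.1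
      · have := (code_inj hz hz1 h).1
        simp at this
      · have := (code_inj hz hz1 h).1
        simp at this
    · intro h
      refine Or.inl ⟨h, ?_⟩
      rintro ⟨b', z', hz', h'⟩
      have := (code_inj hz hz' h').1
      simp at this
  have hX : ∀ X Y z, z.length = t₀.length → (code (true, false) t₀ z ∈ base X Y ↔ z ∈ X) := by
    intro X Y z hz
    constructor
    · rintro (h | ⟨z', hz', hz1, h⟩ | ⟨z', hz', hz1, h⟩)
      · exact absurd ⟨false, z, hz, rfl⟩ h.2
      · rw [(code_inj hz hz1 h).2.2]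
        exact hz'
      · have := (code_inj hz hz1 h).1
        simp at this
    · intro h
      exact Or.inr (Or.inl ⟨z, h, hz, rfl⟩)
  have hY : ∀ X Y z, z.length = t₀.length → (code (true, true) t₀ z ∈ base X Y ↔ z ∈ Y) := by
    intro X Y z hz
    constructor
    · rintro (h | ⟨z', hz', hz1, h⟩ | ⟨z', hz', hz1, h⟩)
      · exact absurd ⟨true, z, hz, rfl⟩ h.2
      · have := (code_inj hz hz1 h).1
        simp at this
      · rw [(code_inj hz hz1 h).2.2]
        exact hz'
    · intro h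
      exact Or.inr (Or.inr ⟨z, h, hz, rfl⟩)
  have hbaseL : ∀ X Y, ∀ t : List Bool, 2 * t.length + 2 < 2 * t₀.length + 3 →
      LegalAt φ t (base X Y) := by
    intro X Y t ht
    have hlen : t.length < (2 * t₀.length + 2) ^ 2 := by nlinarith
    have hh : ∀ b, Has (false, b) t (base X Y) ↔ Has (false, b) t O := by
      intro b
      constructor
      · rintro ⟨z, hz, h⟩
        exact ⟨z, hz, (hbase2 X Y b t z hz).1 h⟩
      · rintro ⟨z, hz, h⟩
        exact ⟨z, hz, (hbase2 X Y b t z hz).2 h⟩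
    have hb : ∀ b, φ b t (base X Y) ↔ φ b t O := fun b => (hφ.agree (hbase X Y) hlen).symm
    obtain ⟨h1, h2, h3⟩ := hO t
    refine ⟨fun b => ?_, ?_, fun b => ?_⟩
    · rw [hh, hb]
      exact h1 b
    · rw [hh, hh]
      exact h2
    · rw [hh, hb, hb]
      exact h3 b
  choose V hV hVag using fun X Y => exists_legal_ext hφ (2 * t₀.length + 3) (base X Y)
    (hbaseL X Y)
  have hVX : ∀ X Y z, z.length = t₀.length →
      (code (true, false) t₀ z ∈ V X Y ↔ z ∈ X) := by
    intro X Y z hz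
    rw [← hVag X Y _ (by rw [code_length _ _ _ hz]; omega), hX X Y z hz]
  have hVY : ∀ X Y z, z.length = t₀.length →
      (code (true, true) t₀ z ∈ V X Y ↔ z ∈ Y) := by
    intro X Y z hz
    rw [← hVag X Y _ (by rw [code_length _ _ _ hz]; omega), hY X Y z hz]
  have hVF : ∀ X Y, ((∃ z ∈ X, z.length = t₀.length) ∨ (∃ z ∈ Y, z.length = t₀.length)) →
      WW φ O t₀ (V X Y) := by
    intro X Y h
    refine ⟨hV X Y, (hbase X Y).trans ((hVag X Y).mono (by omega)), ?_⟩
    rcases h with ⟨z, hz, hz'⟩ | ⟨z, hz, hz'⟩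
    · exact Or.inl ⟨z, hz', (hVX X Y z hz').2 hz⟩
    · exact Or.inr ⟨z, hz', (hVY X Y z hz').2 hz⟩
  let ζ : ℕ → List Bool := fun s => zeta t₀.length s
  have hζ : ∀ s, (ζ s).length = t₀.length := fun s => zeta_length _ _
  have hFX : ∀ s, WW φ O t₀ (V {ζ s} ∅) := fun s => hVF _ _ (Or.inl ⟨ζ s, rfl, hζ s⟩)
  have hFY : ∀ s, WW φ O t₀ (V ∅ {ζ s}) := fun s => hVF _ _ (Or.inr ⟨ζ s, rfl, hζ s⟩)
  have hCX : ∀ s, C (V {ζ s} ∅) := by
    intro s
    refine hpol.1 _ (hFX s) ?_
    rintro ⟨z, hz, h⟩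
    have h2 := (hVY _ _ z hz).1 h
    exact h2
  have hCY : ∀ s, ¬ C (V ∅ {ζ s}) := by
    intro s
    refine hpol.2 _ (hFY s) ?_
    rintro ⟨z, hz, h⟩
    have h2 := (hVX _ _ z hz).1 h
    exact h2
  choose QX hQX1 hQX2 hQX3 using fun s => hC _ (hFX s)
  choose QY hQY1 hQY2 hQY3 using fun s => hC _ (hFY s)
  have hlt : ∀ s ∈ Finset.range (2 * P + 1), s < 2 ^ t₀.length := fun s hs =>
    lt_of_lt_of_le (Finset.mem_range.1 hs) hP
  obtain ⟨s, hs, s', hs', hg1, hg2⟩ := good_pair (Finset.card_range (2 * P + 1))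
    (Finset.card_range (2 * P + 1))
    (fun s s' => code (true, true) t₀ (ζ s') ∈ QX s)
    (fun s s' => code (true, false) t₀ (ζ s) ∈ QY s')
    (by
      intro s hs
      refine ⟨(Finset.range (2 * P + 1)).filter (fun s' => code (true, true) t₀ (ζ s') ∈ QX s),
        ?_, fun s' hs' h => Finset.mem_filter.2 ⟨hs', h⟩⟩
      refine (Finset.card_le_card_of_injOn (fun s' => code (true, true) t₀ (ζ s')) ?_ ?_).trans
        (hQX1 s)
      · intro s' hs'
        exact (Finset.mem_filter.1 hs').2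
      · intro a ha b hb hab
        exact zeta_inj (hlt a (Finset.mem_filter.1 ha).1) (hlt b (Finset.mem_filter.1 hb).1)
          (code_inj (hζ a) (hζ b) hab).2.2)
    (by
      intro s' hs'
      refine ⟨(Finset.range (2 * P + 1)).filter (fun s => code (true, false) t₀ (ζ s) ∈ QY s'),
        ?_, fun s hs h => Finset.mem_filter.2 ⟨hs, h⟩⟩
      refine (Finset.card_le_card_of_injOn (fun s => code (true, false) t₀ (ζ s)) ?_ ?_).trans
        (hQY1 s')
      · intro s hs
        exact (Finset.mem_filter.1 hs).2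
      · intro a ha b hb hab
        exact zeta_inj (hlt a (Finset.mem_filter.1 ha).1) (hlt b (Finset.mem_filter.1 hb).1)
          (code_inj (hζ a) (hζ b) hab).2.2)
  have hFU : WW φ O t₀ (V {ζ s} {ζ s'}) := hVF _ _ (Or.inl ⟨ζ s, rfl, hζ s⟩)
  have hdiff : ∀ X Y X' Y' x, x.length < 2 * t₀.length + 3 →
      (∀ b z, z.length = t₀.length → x ≠ code (true, b) t₀ z) →
      (x ∈ V X Y ↔ x ∈ V X' Y') := by
    intro X Y X' Y' x hx hne
    have key : ∀ X Y, (x ∈ base X Y ↔ x ∈ O) := by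
      intro X Y
      constructor
      · rintro (h | ⟨z', hz', hz1, h⟩ | ⟨z', hz', hz1, h⟩)
        · exact h.1
        · exact absurd h (hne _ z' hz1)
        · exact absurd h (hne _ z' hz1)
      · intro h
        refine Or.inl ⟨h, ?_⟩
        rintro ⟨b, z, hz, rfl⟩
        exact hne b z hz rfl
    rw [← hVag X Y x hx, ← hVag X' Y' x hx, key, key]
  have e1 : C (V {ζ s} {ζ s'}) := by
    refine (hQX3 s _ hFU fun x hx => ?_).2 (hCX s)
    by_cases hne : ∀ b z, z.length = t₀.length → x ≠ code (true, b) t₀ z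
    · exact hdiff _ _ _ _ x (hQX2 s x hx) hne
    · push Not at hne
      obtain ⟨b, z, hz, rfl⟩ := hne
      cases b
      · rw [hVX _ _ z hz, hVX _ _ z hz]
      · rw [hVY _ _ z hz, hVY _ _ z hz]
        constructor
        · intro h
          rw [Set.mem_singleton_iff] at h
          rw [h] at hx
          exact absurd hx hg1
        · intro h
          exact absurd h (Set.notMem_empty _)
  have e2 : ¬ C (V {ζ s} {ζ s'}) := by
    intro hcon
    refine hCY s' ((hQY3 s' _ hFU fun x hx => ?_).1 hcon)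
    by_cases hne : ∀ b z, z.length = t₀.length → x ≠ code (true, b) t₀ z
    · exact hdiff _ _ _ _ x (hQY2 s' x hx) hne
    · push Not at hne
      obtain ⟨b, z, hz, rfl⟩ := hne
      cases b
      · rw [hVX _ _ z hz, hVX _ _ z hz]
        constructor
        · intro h
          rw [Set.mem_singleton_iff] at h
          rw [h] at hx
          exact absurd hx hg2
        · intro h
          exact absurd h (Set.notMem_empty _)
      · rw [hVY _ _ z hz, hVY _ _ z hz]
  exact e2 e1

/-- polynomially bounded -/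
def PB (f : ℕ → ℕ) : Prop := ∃ k, ∀ n, f n ≤ (n + 2) ^ k

theorem PB.mono {f g : ℕ → ℕ} (hg : PB g) (h : ∀ n, f n ≤ g n) : PB f := by
  obtain ⟨k, hk⟩ := hg
  exact ⟨k, fun n => (h n).trans (hk n)⟩

theorem PB.const (c : ℕ) : PB (fun _ => c) :=
  ⟨c, fun n => (Nat.lt_two_pow_self).le.trans (Nat.pow_le_pow_left (by omega) c)⟩

theorem PB.id : PB (fun n => n) := ⟨1, fun n => by simp⟩

theorem PB.mul {f g : ℕ → ℕ} (hf : PB f) (hg : PB g) : PB (fun n => f n * g n) := by
  obtain ⟨k, hk⟩ := hf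
  obtain ⟨l, hl⟩ := hg
  exact ⟨k + l, fun n => by rw [pow_add]; exact Nat.mul_le_mul (hk n) (hl n)⟩

theorem PB.add {f g : ℕ → ℕ} (hf : PB f) (hg : PB g) : PB (fun n => f n + g n) := by
  obtain ⟨k, hk⟩ := hf
  obtain ⟨l, hl⟩ := hg
  refine ⟨k + l + 1, fun n => ?_⟩
  have h1 : (n + 2) ^ k ≤ (n + 2) ^ (k + l) := Nat.pow_le_pow_right (by omega) (by omega)
  have h2 : (n + 2) ^ l ≤ (n + 2) ^ (k + l) := Nat.pow_le_pow_right (by omega) (by omega)
  calc f n + g n ≤ (n + 2) ^ (k + l) + (n + 2) ^ (k + l) := add_le_add ((hk n).trans h1)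
        ((hl n).trans h2)
    _ = (n + 2) ^ (k + l) * 2 := by ring
    _ ≤ (n + 2) ^ (k + l) * (n + 2) := Nat.mul_le_mul_left _ (by omega)
    _ = (n + 2) ^ (k + l + 1) := by ring

theorem PB.pow {f : ℕ → ℕ} (hf : PB f) (d : ℕ) : PB (fun n => f n ^ d) := by
  obtain ⟨k, hk⟩ := hf
  exact ⟨k * d, fun n => by rw [pow_mul]; exact Nat.pow_le_pow_left (hk n) d⟩

theorem PB.eventually_lt {f : ℕ → ℕ} (hf : PB f) : ∀ᶠ n in Filter.atTop, f n < 2 ^ n := by
  obtain ⟨k, hk⟩ := hf
  have h1 : ∀ᶠ n : ℕ in Filter.atTop, ((n : ℝ) ^ k) * 8 ≤ (2 : ℝ) ^ n := by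
    have h := isLittleO_pow_const_const_pow_of_one_lt (R := ℝ) k (r := 2) (by norm_num)
    have h2 := h.bound (c := 1 / 8) (by norm_num)
    filter_upwards [h2] with n hn
    rw [Real.norm_of_nonneg (by positivity), Real.norm_of_nonneg (by positivity)] at hn
    linarith
  have h2 : ∀ᶠ n : ℕ in Filter.atTop, (((n + 2 : ℕ) : ℝ) ^ k) * 8 ≤ (2 : ℝ) ^ (n + 2) :=
    (Filter.tendsto_add_atTop_nat 2).eventually h1
  filter_upwards [h2] with n hn
  have h3 : (n + 2) ^ k * 8 ≤ 2 ^ (n + 2) := by exact_mod_cast hn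
  have h4 : 0 < (n + 2) ^ k := by positivity
  have h5 : 2 ^ (n + 2) = 2 ^ n * 4 := by ring
  have := hk n
  omega

/-- the thresholds -/
def thr (D n : ℕ) : ℕ := (2 * n + 3) ^ (2 ^ D)

theorem thr_zero (n : ℕ) : thr 0 n = 2 * n + 3 := by simp [thr]

theorem thr_succ (D n : ℕ) : thr (D + 1) n = (thr D n) ^ 2 := by
  rw [thr, thr, ← pow_mul, pow_succ]

theorem lt_thr (D n : ℕ) : 2 * n + 2 < thr D n := by
  have h1 : (2 * n + 3) ^ 1 ≤ (2 * n + 3) ^ (2 ^ D) :=
    Nat.pow_le_pow_right (by omega) Nat.one_le_two_pow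
  rw [pow_one] at h1
  exact lt_of_lt_of_le (by omega) h1

theorem PB.thr (D : ℕ) : PB (thr D) := by
  have h : PB (fun n => 2 * n + 3) := ((PB.const 2).mul PB.id).add (PB.const 3)
  exact h.pow _

theorem PB.exists_thr {f : ℕ → ℕ} (hf : PB f) : ∃ D, ∀ n, f n < H578R2.thr D n := by
  obtain ⟨k, hk⟩ := hf
  refine ⟨k, fun n => (hk n).trans_lt ?_⟩
  calc (n + 2) ^ k ≤ (2 * n + 3) ^ k := Nat.pow_le_pow_left (by omega) k
    _ < (2 * n + 3) ^ (2 ^ k) := Nat.pow_lt_pow_right (by omega) Nat.lt_two_pow_self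

theorem no_cert_thr {φ : Bool → List Bool → Set (List Bool) → Prop} (hφ : Loc φ) :
    ∀ (D : ℕ) (f : ℕ → ℕ), PB f → ∀ᶠ n in Filter.atTop, ∀ O : Set (List Bool), Legal φ O →
      ∀ t₀ : List Bool, t₀.length = n → ∀ C : Set (List Bool) → Prop,
        Cert (WW φ O t₀) C (f n) (thr D n) → Pol (WW φ O t₀) t₀ C → False
  | 0, f, hf => by
      have h1 : PB (fun n => 2 * f n + 1) := ((PB.const 2).mul hf).add (PB.const 1)
      filter_upwards [h1.eventually_lt] with n hn
      intro O hO t₀ ht₀ C hC hpol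
      subst ht₀
      rw [thr_zero] at hC
      exact no_cert hφ hO hn.le hC hpol
  | D + 1, f, hf => by
      have h1 : PB (fun n => 4 * f n + 1) := ((PB.const 4).mul hf).add (PB.const 1)
      have h2 : PB (fun n => (2 * f n + 1) * (f n + f n * thr D n)) :=
        (((PB.const 2).mul hf).add (PB.const 1)).mul (hf.add (hf.mul (PB.thr D)))
      filter_upwards [h1.eventually_lt, no_cert_thr hφ D _ h2] with n hn hrec
      intro O hO t₀ ht₀ C hC hpol
      subst ht₀
      obtain ⟨C', hC', hpol'⟩ := descent hφ (lt_thr D _) (thr_succ D _).le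
        (by rw [thr_succ]; exact Nat.le_self_pow (by norm_num) _) hn.le hC hpol
      exact hrec O hO t₀ rfl C' hC' hpol'

/-- predicates with polynomially bounded certificates -/
def PLoc (α : List Bool → Set (List Bool) → Prop) (f : ℕ → ℕ) : Prop :=
  ∀ t O, α t O → ∃ Q : Finset (List Bool), Q.card ≤ f t.length ∧
    (∀ s ∈ Q, s.length ≤ f t.length) ∧ ∀ O', (∀ s ∈ Q, (s ∈ O' ↔ s ∈ O)) → α t O'

theorem PLoc.agree {α : List Bool → Set (List Bool) → Prop} {f : ℕ → ℕ} (h : PLoc α f)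
    {t : List Bool} {O O' : Set (List Bool)} (hag : Agree (f t.length + 1) O O') :
    α t O ↔ α t O' := by
  constructor
  · intro h1
    obtain ⟨Q, -, h2, h3⟩ := h t O h1
    exact h3 O' fun s hs => (hag s (Nat.lt_succ_of_le (h2 s hs))).symm
  · intro h1
    obtain ⟨Q, -, h2, h3⟩ := h t O' h1
    exact h3 O fun s hs => hag s (Nat.lt_succ_of_le (h2 s hs))

/-- the two predicates shrink the two fact predicates at `t` -/
def Shr (α β : List Bool → Set (List Bool) → Prop) (t : List Bool) (O : Set (List Bool)) : Prop :=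
  (α t O → Has (true, false) t O) ∧ (β t O → Has (true, true) t O) ∧ ¬ (α t O ∧ β t O) ∧
    (Has (true, false) t O ∨ Has (true, true) t O → α t O ∨ β t O)

theorem stage {φ : Bool → List Bool → Set (List Bool) → Prop} (hφ : Loc φ)
    {α β : List Bool → Set (List Bool) → Prop} {f : ℕ → ℕ} (hf : PB f) (hα : PLoc α f)
    (hβ : PLoc β f) : ∀ᶠ n in Filter.atTop, ∀ O : Set (List Bool), Legal φ O →
      ∃ O', Legal φ O' ∧ Agree (2 * n + 2) O O' ∧ ¬ Shr α β (List.replicate n false) O' := by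
  obtain ⟨D, hD⟩ := hf.exists_thr
  filter_upwards [no_cert_thr hφ D f hf] with n hn
  intro O hO
  by_contra hcon
  push Not at hcon
  have ht₀ : (List.replicate n false).length = n := by simp
  refine hn O hO (List.replicate n false) ht₀ (α (List.replicate n false)) ?_ ⟨?_, ?_⟩
  · intro W hW
    have hs := hcon W hW.1 (by simpa using hW.2.1)
    by_cases h : α (List.replicate n false) W
    · obtain ⟨Q, h1, h2, h3⟩ := hα _ W h
      rw [ht₀] at h1 h2
      refine ⟨Q, h1, fun s hs => (h2 s hs).trans_lt (hD n), fun W' _ hag => ?_⟩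
      exact ⟨fun _ => h, fun _ => h3 W' hag⟩
    · have hb : β (List.replicate n false) W := (hs.2.2.2 hW.2.2).resolve_left h
      obtain ⟨Q, h1, h2, h3⟩ := hβ _ W hb
      rw [ht₀] at h1 h2
      refine ⟨Q, h1, fun s hs => (h2 s hs).trans_lt (hD n), fun W' hW' hag => ?_⟩
      have hs' := hcon W' hW'.1 (by simpa using hW'.2.1)
      exact ⟨fun h' => absurd ⟨h', h3 W' hag⟩ hs'.2.2.1, fun h' => absurd h' h⟩
  · intro W hW hno
    have hs := hcon W hW.1 (by simpa using hW.2.1)
    exact (hs.2.2.2 hW.2.2).resolve_right fun hb => hno (hs.2.1 hb)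
  · intro W hW hno h
    have hs := hcon W hW.1 (by simpa using hW.2.1)
    exact hno (hs.1 h)

theorem shr_agree {α β : List Bool → Set (List Bool) → Prop} {f : ℕ → ℕ} (hα : PLoc α f)
    (hβ : PLoc β f) {t : List Bool} {O O' : Set (List Bool)}
    (hag : Agree (f t.length + 2 * t.length + 3) O O') : Shr α β t O ↔ Shr α β t O' := by
  have h1 := hα.agree (t := t) (hag.mono (by omega))
  have h2 := hβ.agree (t := t) (hag.mono (by omega))
  have h3 := hag.has (τ := (true, false)) (t := t) (by omega)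
  have h4 := hag.has (τ := (true, true)) (t := t) (by omega)
  rw [Shr, Shr, h1, h2, h3, h4]

theorem exists_oracle {φ : Bool → List Bool → Set (List Bool) → Prop} (hφ : Loc φ)
    (α β : ℕ → List Bool → Set (List Bool) → Prop)
    (h : ∀ e, ∃ f, PB f ∧ PLoc (α e) f ∧ PLoc (β e) f) :
    ∃ O, Legal φ O ∧ ∀ e, ∃ t, ¬ Shr (α e) (β e) t O := by
  have hnext : ∀ (e : ℕ) (p : {p : Set (List Bool) × ℕ // Legal φ p.1}),
      ∃ q : {p : Set (List Bool) × ℕ // Legal φ p.1}, Agree p.1.2 p.1.1 q.1.1 ∧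
        p.1.2 < q.1.2 ∧ ∀ O'', Agree q.1.2 q.1.1 O'' → ∃ t, ¬ Shr (α e) (β e) t O'' := by
    rintro e ⟨⟨O, N⟩, hO⟩
    obtain ⟨f, hf, hα, hβ⟩ := h e
    obtain ⟨n, hn, hnN⟩ := ((stage hφ hf hα hβ).and (Filter.eventually_ge_atTop N)).exists
    obtain ⟨O', hO', hag, hshr⟩ := hn O hO
    refine ⟨⟨⟨O', f n + 2 * n + 3 + N⟩, hO'⟩, hag.mono (by simp only; omega),
      by simp only; omega, ?_⟩
    intro O'' hag''
    refine ⟨List.replicate n false, fun hc => hshr ?_⟩
    refine (shr_agree hα hβ ?_).2 hc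
    refine hag''.mono ?_
    simp only [List.length_replicate]
    omega
  choose next hn1 hn2 hn3 using hnext
  obtain ⟨O₀, hO₀, -⟩ := exists_legal_ext hφ 0 ∅ (fun t ht => absurd ht (Nat.not_lt_zero _))
  let sq : ℕ → {p : Set (List Bool) × ℕ // Legal φ p.1} := fun e =>
    Nat.rec ⟨⟨O₀, 0⟩, hO₀⟩ (fun e p => next e p) e
  have hsq : ∀ e, sq (e + 1) = next e (sq e) := fun e => rfl
  have hN : ∀ e, (sq e).1.2 < (sq (e + 1)).1.2 := fun e => by rw [hsq]; exact hn2 e (sq e)
  have hNm : StrictMono fun e => (sq e).1.2 := strictMono_nat_of_lt_succ hN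
  have hagr : ∀ e k, Agree (sq e).1.2 (sq e).1.1 (sq (e + k)).1.1 := by
    intro e k
    induction k with
    | zero => exact Agree.refl _ _
    | succ k ih =>
      refine ih.trans ?_
      rw [← add_assoc, hsq]
      exact (hn1 (e + k) (sq (e + k))).mono (hNm.monotone (Nat.le_add_right _ _))
  let O : Set (List Bool) := {x | ∃ e, x.length < (sq e).1.2 ∧ x ∈ (sq e).1.1}
  have hO : ∀ e, Agree (sq e).1.2 (sq e).1.1 O := by
    intro e x hx
    constructor
    · intro hm
      exact ⟨e, hx, hm⟩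
    · rintro ⟨e', hx', hm⟩
      rcases le_total e e' with hle | hle
      · obtain ⟨k, rfl⟩ := Nat.exists_eq_add_of_le hle
        exact (hagr e k x hx).2 hm
      · obtain ⟨k, rfl⟩ := Nat.exists_eq_add_of_le hle
        exact (hagr e' k x hx').1 hm
  refine ⟨O, fun t => ?_, fun e => ?_⟩
  · have : 2 * t.length + 2 < (sq (2 * t.length + 3)).1.2 :=
      lt_of_lt_of_le (by omega) (hNm.le_apply (x := 2 * t.length + 3))
    exact LegalAt.agree hφ (hO (2 * t.length + 3)) this ((sq (2 * t.length + 3)).2 t)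
  · refine hn3 e (sq e) O ?_
    rw [← hsq]
    exact hO (e + 1)

end Pool.Agent.H578R2
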