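import Mathlib

/-!
The combinatorial part: oracles which carry hidden codes for pairs of statements, and the descent
argument showing that two NP predicates cannot shrink a generic pair for all such oracles.
-/

namespace Pool.Agent.H578R2

/-- interleave two lists and put the result, reversed, on top of `acc` -/
def mix : List Bool → List Bool → List Bool → List Bool
  | acc, a :: t, b :: z => mix (b :: a :: acc) t z
  | acc, [], _ => acc
  | acc, _ :: _, [] => acc

/-- the code string with tag `τ` of `t`, carrying the hidden string `z` (of the same length) -/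
def code (τ : Bool × Bool) (t z : List Bool) : List Bool := τ.1 :: τ.2 :: mix [] t z

def inter : List Bool → List Bool → List Bool
  | a :: t, b :: z => a :: b :: inter t z
  | [], _ => []
  | _ :: _, [] => []

theorem mix_eq : ∀ (acc t z : List Bool), mix acc t z = (inter t z).reverse ++ acc
  | acc, a :: t, b :: z => by
      rw [mix, inter, mix_eq (b :: a :: acc) t z]
      simp
  | acc, [], _ => by simp [mix, inter]
  | acc, _ :: _, [] => by simp [mix, inter]

theorem inter_length : ∀ (t z : List Bool), z.length = t.length →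
    (inter t z).length = 2 * t.length
  | a :: t, b :: z, h => by
      have := inter_length t z (by simpa using h)
      simp only [inter, List.length_cons, this]
      omega
  | [], _, _ => by simp [inter]
  | _ :: _, [], h => by simp at h

theorem inter_inj : ∀ (t z t' z' : List Bool), z.length = t.length → z'.length = t'.length →
    inter t z = inter t' z' → t = t' ∧ z = z'
  | a :: t, b :: z, a' :: t', b' :: z', h, h', e => by
      simp only [inter, List.cons.injEq] at e
      obtain ⟨e1, e2, e3⟩ := e
      obtain ⟨h1, h2⟩ := inter_inj t z t' z' (by simpa using h) (by simpa using h') e3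
      subst e1; subst e2; subst h1; subst h2
      exact ⟨rfl, rfl⟩
  | [], z, t', z', h, h', e => by
      have hz : z = [] := List.length_eq_zero_iff.1 (by simpa using h)
      subst hz
      have h1 := inter_length t' z' h'
      rw [← e] at h1
      simp only [inter, List.length_nil] at h1
      have ht' : t' = [] := List.length_eq_zero_iff.1 (by omega)
      subst ht'
      have hz' : z' = [] := List.length_eq_zero_iff.1 (by simpa using h')
      subst hz'
      exact ⟨rfl, rfl⟩
  | a :: t, z, [], z', h, h', e => by
      have hz : z' = [] := List.length_eq_zero_iff.1 (by simpa using h')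
      subst hz
      have h1 := inter_length (a :: t) z h
      rw [e] at h1
      simp only [inter, List.length_nil, List.length_cons] at h1
      omega
  | _ :: _, [], _, _, h, _, _ => by simp at h
  | _, _, _ :: _, [], _, h, _ => by simp at h

theorem code_length (τ : Bool × Bool) (t z : List Bool) (h : z.length = t.length) :
    (code τ t z).length = 2 * t.length + 2 := by
  rw [code, List.length_cons, List.length_cons, mix_eq, List.append_nil, List.length_reverse,
    inter_length t z h]

theorem code_inj {τ τ' : Bool × Bool} {t z t' z' : List Bool} (h : z.length = t.length)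
    (h' : z'.length = t'.length) (e : code τ t z = code τ' t' z') :
    τ = τ' ∧ t = t' ∧ z = z' := by
  rw [code, code, mix_eq, mix_eq, List.append_nil, List.append_nil] at e
  simp only [List.cons.injEq, List.reverse_inj] at e
  obtain ⟨e1, e2, e3⟩ := e
  exact ⟨Prod.ext e1 e2, inter_inj t z t' z' h h' e3⟩

/-- some code string with tag `τ` of `t` belongs to the oracle -/
def Has (τ : Bool × Bool) (t : List Bool) (O : Set (List Bool)) : Prop :=
  ∃ z : List Bool, z.length = t.length ∧ code τ t z ∈ O

def Agree (L : ℕ) (O O' : Set (List Bool)) : Prop := ∀ s : List Bool, s.length < L → (s ∈ O ↔ s ∈ O')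

theorem Agree.symm {L : ℕ} {O O' : Set (List Bool)} (h : Agree L O O') : Agree L O' O :=
  fun s hs => (h s hs).symm

theorem Agree.trans {L : ℕ} {O O' O'' : Set (List Bool)} (h : Agree L O O') (h' : Agree L O' O'') :
    Agree L O O'' := fun s hs => (h s hs).trans (h' s hs)

theorem Agree.mono {L L' : ℕ} {O O' : Set (List Bool)} (h : Agree L O O') (hL : L' ≤ L) :
    Agree L' O O' := fun s hs => h s (lt_of_lt_of_le hs hL)

theorem Agree.refl (L : ℕ) (O : Set (List Bool)) : Agree L O O := fun _ _ => Iff.rfl

theorem Agree.has {L : ℕ} {O O' : Set (List Bool)} (h : Agree L O O') {τ : Bool × Bool}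
    {t : List Bool} (ht : 2 * t.length + 2 < L) : Has τ t O ↔ Has τ t O' := by
  constructor
  · rintro ⟨z, hz, hm⟩
    exact ⟨z, hz, (h _ (by rw [code_length τ t z hz]; exact ht)).1 hm⟩
  · rintro ⟨z, hz, hm⟩
    exact ⟨z, hz, (h _ (by rw [code_length τ t z hz]; exact ht)).2 hm⟩

/-- the statements `φ b t` have short certificates -/
def Loc (φ : Bool → List Bool → Set (List Bool) → Prop) : Prop :=
  ∀ b t O, φ b t O → ∃ Q : Finset (List Bool), Q.card ^ 2 ≤ t.length ∧
    (∀ s ∈ Q, s.length ^ 2 ≤ t.length) ∧ ∀ O', (∀ s ∈ Q, (s ∈ O' ↔ s ∈ O)) → φ b t O'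

theorem Loc.agree {φ : Bool → List Bool → Set (List Bool) → Prop} (hφ : Loc φ) {L : ℕ}
    {O O' : Set (List Bool)} (h : Agree L O O') {b : Bool} {t : List Bool}
    (ht : t.length < L ^ 2) : φ b t O ↔ φ b t O' := by
  constructor
  · intro h1
    obtain ⟨Q, -, h2, h3⟩ := hφ b t O h1
    refine h3 O' fun s hs => (h s ?_).symm
    have := h2 s hs
    by_contra hc
    have : L ^ 2 ≤ s.length ^ 2 := Nat.pow_le_pow_left (not_lt.1 hc) 2
    omega
  · intro h1
    obtain ⟨Q, -, h2, h3⟩ := hφ b t O' h1
    refine h3 O fun s hs => (h s ?_)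
    have := h2 s hs
    by_contra hc
    have : L ^ 2 ≤ s.length ^ 2 := Nat.pow_le_pow_left (not_lt.1 hc) 2
    omega

/-- the codes of `t` in the oracle are as required -/
def LegalAt (φ : Bool → List Bool → Set (List Bool) → Prop) (t : List Bool)
    (O : Set (List Bool)) : Prop :=
  (∀ b, Has (false, b) t O → φ b t O) ∧ ¬ (Has (false, true) t O ∧ Has (false, false) t O) ∧
    (∀ b, φ b t O → ¬ φ (!b) t O → Has (false, b) t O)

def Legal (φ : Bool → List Bool → Set (List Bool) → Prop) (O : Set (List Bool)) : Prop :=
  ∀ t, LegalAt φ t O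

theorem LegalAt.agree {φ : Bool → List Bool → Set (List Bool) → Prop} (hφ : Loc φ) {L : ℕ}
    {O O' : Set (List Bool)} (h : Agree L O O') {t : List Bool}
    (ht : 2 * t.length + 2 < L) (hl : LegalAt φ t O) : LegalAt φ t O' := by
  have ht' : t.length < L ^ 2 := by nlinarith
  obtain ⟨h1, h2, h3⟩ := hl
  refine ⟨fun b hb => ?_, ?_, fun b hb hb' => ?_⟩
  · exact (hφ.agree h ht').1 (h1 b ((h.has ht).2 hb))
  · rw [← h.has ht, ← h.has ht]
    exact h2
  · exact (h.has ht).1 (h3 b ((hφ.agree h ht').2 hb) (fun hc => hb' ((hφ.agree h ht').1 hc)))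

theorem exists_legal_ext {φ : Bool → List Bool → Set (List Bool) → Prop} (hφ : Loc φ) (L : ℕ)
    (w : Set (List Bool)) (hw : ∀ t : List Bool, 2 * t.length + 2 < L → LegalAt φ t w) :
    ∃ W, Legal φ W ∧ Agree L w W := by
  classical
  -- membership by recursion on the length
  let F : (s : List Bool) → ((s' : List Bool) → s'.length < s.length → Prop) → Prop :=
    fun s rec => (s.length < L ∧ s ∈ w) ∨ (L ≤ s.length ∧ ∃ (t : List Bool) (b : Bool),
      s = code (false, b) t (List.replicate t.length false) ∧
      φ b t {s' | ∃ h : s'.length < s.length, rec s' h} ∧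
      ¬ φ (!b) t {s' | ∃ h : s'.length < s.length, rec s' h})
  let mem : List Bool → Prop := (measure (List.length (α := Bool))).wf.fix F
  have hmem : ∀ s, mem s ↔ ((s.length < L ∧ s ∈ w) ∨ (L ≤ s.length ∧
      ∃ (t : List Bool) (b : Bool), s = code (false, b) t (List.replicate t.length false) ∧
      φ b t {s' | ∃ _ : s'.length < s.length, mem s'} ∧
      ¬ φ (!b) t {s' | ∃ _ : s'.length < s.length, mem s'})) := by
    intro s
    have := (measure (List.length (α := Bool))).wf.fix_eq F s
    exact iff_of_eq this
  let W : Set (List Bool) := {s | mem s}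
  have hagree : Agree L w W := by
    intro s hs
    change s ∈ w ↔ mem s
    rw [hmem s]
    constructor
    · intro h
      exact Or.inl ⟨hs, h⟩
    · rintro (h | h)
      · exact h.2
      · omega
  refine ⟨W, fun t => ?_, hagree⟩
  by_cases ht : 2 * t.length + 2 < L
  · exact (hw t ht).agree hφ hagree ht
  · have key : ∀ (n : ℕ), Agree n {s' | ∃ _ : s'.length < n, mem s'} W := by
      intro n s hs
      change (∃ _ : s.length < n, mem s) ↔ mem s
      exact ⟨fun h => h.2, fun h => ⟨hs, h⟩⟩
    have hlen : t.length < (2 * t.length + 2) ^ 2 := by nlinarith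
    have hcode : ∀ b z, z.length = t.length → (code (false, b) t z ∈ W ↔
        (z = List.replicate t.length false ∧ φ b t W ∧ ¬ φ (!b) t W)) := by
      intro b z hz
      change mem _ ↔ _
      rw [hmem, code_length _ t z hz]
      constructor
      · rintro (h | ⟨-, t', b', he, h1, h2⟩)
        · exact absurd h.1 ht
        · obtain ⟨hτ, ht', hz'⟩ := code_inj hz (by simp) he
          subst ht'
          simp only [Prod.mk.injEq, true_and] at hτ
          subst hτ
          exact ⟨hz', (hφ.agree (key _) hlen).1 h1, fun hc => h2 ((hφ.agree (key _) hlen).2 hc)⟩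
      · rintro ⟨h0, h1, h2⟩
        refine Or.inr ⟨by omega, t, b, by rw [h0], (hφ.agree (key _) hlen).2 h1,
          fun hc => h2 ((hφ.agree (key _) hlen).1 hc)⟩
    refine ⟨?_, ?_, ?_⟩
    · rintro b ⟨z, hz, hm⟩
      exact ((hcode b z hz).1 hm).2.1
    · rintro ⟨⟨z, hz, hm⟩, ⟨z', hz', hm'⟩⟩
      exact ((hcode _ z hz).1 hm).2.2 ((hcode _ z' hz').1 hm').2.1
    · intro b hb hb'
      exact ⟨List.replicate t.length false, by simp, (hcode b _ (by simp)).2 ⟨rfl, hb, hb'⟩⟩

end Pool.Agent.H578R2
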