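import Pool.Agent.H578R2.Core

/-!
The descent: from a colouring of the oracles with small certificates to one whose certificates
consist of shorter strings.
-/

namespace Pool.Agent.H578R2

/-- the `s`-th string of length `ℓ` -/
def zeta (ℓ s : ℕ) : List Bool := (List.range ℓ).map (fun i => s.testBit i)

theorem zeta_length (ℓ s : ℕ) : (zeta ℓ s).length = ℓ := by simp [zeta]

theorem zeta_inj {ℓ s s' : ℕ} (hs : s < 2 ^ ℓ) (hs' : s' < 2 ^ ℓ) (h : zeta ℓ s = zeta ℓ s') :
    s = s' := by
  apply Nat.eq_of_testBit_eq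
  intro i
  by_cases hi : i < ℓ
  · have := List.map_inj_left.1 h i (List.mem_range.2 hi)
    exact this
  · rw [Nat.testBit_lt_two_pow (lt_of_lt_of_le hs (Nat.pow_le_pow_right (by norm_num) (not_lt.1 hi))),
      Nat.testBit_lt_two_pow (lt_of_lt_of_le hs' (Nat.pow_le_pow_right (by norm_num) (not_lt.1 hi)))]

theorem good_pair {S S' : Finset ℕ} {P : ℕ} (hS : S.card = 2 * P + 1) (hS' : S'.card = 2 * P + 1)
    (R1 R2 : ℕ → ℕ → Prop)
    (h1 : ∀ s ∈ S, ∃ B : Finset ℕ, B.card ≤ P ∧ ∀ s' ∈ S', R1 s s' → s' ∈ B)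
    (h2 : ∀ s' ∈ S', ∃ B : Finset ℕ, B.card ≤ P ∧ ∀ s ∈ S, R2 s s' → s ∈ B) :
    ∃ s ∈ S, ∃ s' ∈ S', ¬ R1 s s' ∧ ¬ R2 s s' := by
  classical
  by_contra hcon
  push Not at hcon
  choose! B1 hB1 hB1' using h1
  choose! B2 hB2 hB2' using h2
  have hsub : S ×ˢ S' ⊆ (S.sigma B1).image (fun p => (p.1, p.2)) ∪
      (S'.sigma B2).image (fun p => (p.2, p.1)) := by
    rintro ⟨s, s'⟩ hp
    rw [Finset.mem_product] at hp
    rw [Finset.mem_union, Finset.mem_image, Finset.mem_image]
    by_cases h : R1 s s'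
    · exact Or.inl ⟨⟨s, s'⟩, Finset.mem_sigma.2 ⟨hp.1, hB1' s hp.1 s' hp.2 h⟩, rfl⟩
    · exact Or.inr ⟨⟨s', s⟩, Finset.mem_sigma.2 ⟨hp.2, hB2' s' hp.2 s hp.1
        (hcon s hp.1 s' hp.2 h)⟩, rfl⟩
  have c1 : ((S.sigma B1).image (fun p => (p.1, p.2))).card ≤ (2 * P + 1) * P := by
    refine Finset.card_image_le.trans ?_
    rw [Finset.card_sigma]
    calc ∑ a ∈ S, (B1 a).card ≤ ∑ a ∈ S, P := Finset.sum_le_sum fun a ha => hB1 a ha
      _ = (2 * P + 1) * P := by rw [Finset.sum_const, hS, smul_eq_mul]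
  have c2 : ((S'.sigma B2).image (fun p => (p.2, p.1))).card ≤ (2 * P + 1) * P := by
    refine Finset.card_image_le.trans ?_
    rw [Finset.card_sigma]
    calc ∑ a ∈ S', (B2 a).card ≤ ∑ a ∈ S', P := Finset.sum_le_sum fun a ha => hB2 a ha
      _ = (2 * P + 1) * P := by rw [Finset.sum_const, hS', smul_eq_mul]
  have c3 := Finset.card_le_card hsub
  rw [Finset.card_product, hS, hS'] at c3
  have c4 := c3.trans (Finset.card_union_le _ _)
  nlinarith

/-- the oracles considered at a stage -/
def WW (φ : Bool → List Bool → Set (List Bool) → Prop) (O : Set (List Bool)) (t₀ : List Bool)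
    (W : Set (List Bool)) : Prop :=
  Legal φ W ∧ Agree (2 * t₀.length + 2) O W ∧ (Has (true, false) t₀ W ∨ Has (true, true) t₀ W)

def Cert (F : Set (List Bool) → Prop) (C : Set (List Bool) → Prop) (P L : ℕ) : Prop :=
  ∀ W, F W → ∃ Q : Finset (List Bool), Q.card ≤ P ∧ (∀ s ∈ Q, s.length < L) ∧
    ∀ W', F W' → (∀ s ∈ Q, (s ∈ W' ↔ s ∈ W)) → (C W' ↔ C W)

def Pol (F : Set (List Bool) → Prop) (t₀ : List Bool) (C : Set (List Bool) → Prop) : Prop :=
  (∀ W, F W → ¬ Has (true, true) t₀ W → C W) ∧ (∀ W, F W → ¬ Has (true, false) t₀ W → ¬ C W)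

theorem legal_of {φ : Bool → List Bool → Set (List Bool) → Prop} (hφ : Loc φ) {L L' : ℕ}
    (hLL : L' ≤ L ^ 2) {W w : Set (List Bool)} (hW : Legal φ W) (hag : Agree L W w)
    (h1 : ∀ b t z, z.length = t.length → L ≤ 2 * t.length + 2 → 2 * t.length + 2 < L' →
      code (false, b) t z ∈ w → φ b t W)
    (h2 : ∀ t, L ≤ 2 * t.length + 2 → 2 * t.length + 2 < L' →
      ¬ (Has (false, true) t w ∧ Has (false, false) t w))
    (h3 : ∀ b t, L ≤ 2 * t.length + 2 → 2 * t.length + 2 < L' → φ b t W → ¬ φ (!b) t W →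
      Has (false, b) t w) :
    ∀ t : List Bool, 2 * t.length + 2 < L' → LegalAt φ t w := by
  intro t ht
  by_cases htL : 2 * t.length + 2 < L
  · exact (hW t).agree hφ hag htL
  · have hlen : t.length < L ^ 2 := by omega
    refine ⟨?_, h2 t (by omega) ht, fun b hb hb' => ?_⟩
    · rintro b ⟨z, hz, hm⟩
      exact (hφ.agree hag hlen).1 (h1 b t z hz (by omega) ht hm)
    · exact h3 b t (by omega) ht ((hφ.agree hag hlen).2 hb)
        (fun hc => hb' ((hφ.agree hag hlen).1 hc))

/-- the oracle `W` up to length `L`, followed by the forced codes up to length `L'`, with the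
`s`-th hidden string -/
def trunc (φ : Bool → List Bool → Set (List Bool) → Prop) (L L' : ℕ) (W : Set (List Bool))
    (s : ℕ) : Set (List Bool) :=
  {x | (x.length < L ∧ x ∈ W) ∨ ∃ (t : List Bool) (b : Bool), L ≤ 2 * t.length + 2 ∧
    2 * t.length + 2 < L' ∧ φ b t W ∧ ¬ φ (!b) t W ∧ x = code (false, b) t (zeta t.length s)}

theorem trunc_agree {φ : Bool → List Bool → Set (List Bool) → Prop} (L L' : ℕ)
    (W : Set (List Bool)) (s : ℕ) : Agree L W (trunc φ L L' W s) := by
  intro x hx
  constructor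
  · intro h
    exact Or.inl ⟨hx, h⟩
  · rintro (h | ⟨t, b, h1, h2, h3, h4, h5⟩)
    · exact h.2
    · rw [h5, code_length _ _ _ (zeta_length _ _)] at hx
      omega

theorem mem_trunc_code {φ : Bool → List Bool → Set (List Bool) → Prop} {L L' : ℕ}
    {W : Set (List Bool)} {s : ℕ} {τ : Bool × Bool} {t z : List Bool} (hz : z.length = t.length)
    (ht : L ≤ 2 * t.length + 2) : code τ t z ∈ trunc φ L L' W s ↔
      (2 * t.length + 2 < L' ∧ τ.1 = false ∧ z = zeta t.length s ∧ φ τ.2 t W ∧
        ¬ φ (!τ.2) t W) := by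
  constructor
  · rintro (h | ⟨t', b, h1, h2, h3, h4, h5⟩)
    · rw [code_length _ _ _ hz] at h
      omega
    · obtain ⟨e1, e2, e3⟩ := code_inj hz (zeta_length _ _) h5
      subst e2
      subst e1
      exact ⟨h2, rfl, e3, h3, h4⟩
  · rintro ⟨h1, h2, h3, h4, h5⟩
    refine Or.inr ⟨t, τ.2, ht, h1, h4, h5, ?_⟩
    rw [h3]
    congr 1
    exact Prod.ext h2 rfl

theorem trunc_code_of_mem {φ : Bool → List Bool → Set (List Bool) → Prop} {L L' : ℕ}
    {W : Set (List Bool)} {s : ℕ} {x : List Bool} (hx : L ≤ x.length)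
    (h : x ∈ trunc φ L L' W s) : ∃ (t : List Bool) (b : Bool), L ≤ 2 * t.length + 2 ∧
      2 * t.length + 2 < L' ∧ φ b t W ∧ ¬ φ (!b) t W ∧ x = code (false, b) t (zeta t.length s) := by
  rcases h with h | h
  · omega
  · exact h

theorem descent {φ : Bool → List Bool → Set (List Bool) → Prop} (hφ : Loc φ)
    {O : Set (List Bool)} {t₀ : List Bool} {C : Set (List Bool) → Prop} {P L L' : ℕ}
    (hL : 2 * t₀.length + 2 < L) (hLL : L' ≤ L ^ 2) (hLle : L ≤ L')
    (hP : 4 * P + 1 ≤ 2 ^ t₀.length)
    (hC : Cert (WW φ O t₀) C P L') (hpol : Pol (WW φ O t₀) t₀ C) :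
    ∃ C', Cert (WW φ O t₀) C' ((2 * P + 1) * (P + P * L)) L ∧ Pol (WW φ O t₀) t₀ C' := by
  classical
  -- the worlds `W_s`
  have hex : ∀ W s, ∃ V, Legal φ W → Legal φ V ∧ Agree L' (trunc φ L L' W s) V := by
    intro W s
    by_cases hW : Legal φ W
    · obtain ⟨V, hV, hV'⟩ := exists_legal_ext hφ L' (trunc φ L L' W s)
        (legal_of hφ hLL hW (trunc_agree L L' W s) (fun b t z hz ht ht' hm =>
          ((mem_trunc_code hz ht).1 hm).2.2.2.1) (fun t ht ht' h => by
            obtain ⟨⟨z, hz, hm⟩, ⟨z', hz', hm'⟩⟩ := h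
            exact ((mem_trunc_code hz ht).1 hm).2.2.2.2 ((mem_trunc_code hz' ht).1 hm').2.2.2.1)
          (fun b t ht ht' hb hb' => ⟨zeta t.length s, zeta_length _ _,
            (mem_trunc_code (zeta_length _ _) ht).2 ⟨ht', rfl, rfl, hb, hb'⟩⟩))
      exact ⟨V, fun _ => ⟨hV, hV'⟩⟩
    · exact ⟨∅, fun h => absurd h hW⟩
  choose V hV using hex
  have hVW : ∀ W, Legal φ W → ∀ s, Agree L W (V W s) := fun W hW s =>
    (trunc_agree L L' W s).trans ((hV W s hW).2.mono hLle)
  have hF : ∀ W, WW φ O t₀ W → ∀ s, WW φ O t₀ (V W s) := by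
    intro W hW s
    refine ⟨(hV W s hW.1).1, hW.2.1.trans ((hVW W hW.1 s).mono hL.le), ?_⟩
    rw [← (hVW W hW.1 s).has hL, ← (hVW W hW.1 s).has hL]
    exact hW.2.2
  -- certificates
  have hQex : ∀ W, ∃ Q : Finset (List Bool), WW φ O t₀ W → Q.card ≤ P ∧
      (∀ s ∈ Q, s.length < L') ∧
      ∀ W', WW φ O t₀ W' → (∀ s ∈ Q, (s ∈ W' ↔ s ∈ W)) → (C W' ↔ C W) := by
    intro W
    by_cases hW : WW φ O t₀ W
    · obtain ⟨Q, h⟩ := hC W hW
      exact ⟨Q, fun _ => h⟩
    · exact ⟨∅, fun h => absurd h hW⟩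
  choose Q hQ using hQex
  -- the local certificates for the codes in `x`
  have hKex : ∀ (W : Set (List Bool)) (x : List Bool), ∃ K : Finset (List Bool),
      K.card ≤ L ∧ (∀ s ∈ K, s.length < L) ∧ ∀ b t z, z.length = t.length →
        x = code (false, b) t z → x.length < L' → φ b t W → ∀ W',
          (∀ s ∈ K, (s ∈ W' ↔ s ∈ W)) → φ b t W' := by
    intro W x
    by_cases h : ∃ b t z, z.length = t.length ∧ x = code (false, b) t z ∧ x.length < L' ∧
        φ b t W
    · obtain ⟨b, t, z, hz, hx, hxl, hb⟩ := h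
      obtain ⟨K, hK1, hK2, hK3⟩ := hφ b t W hb
      have hlen : t.length < L ^ 2 := by
        rw [hx, code_length _ _ _ hz] at hxl
        omega
      refine ⟨K, ?_, ?_, ?_⟩
      · by_contra hc
        have : L ^ 2 ≤ K.card ^ 2 := Nat.pow_le_pow_left (not_le.1 hc).le 2
        omega
      · intro s hs
        by_contra hc
        have h1 : L ^ 2 ≤ s.length ^ 2 := Nat.pow_le_pow_left (not_lt.1 hc) 2
        have h2 := hK2 s hs
        omega
      · intro b' t' z' hz' hx' _ _ W' hW'
        rw [hx] at hx'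
        obtain ⟨e1, e2, e3⟩ := code_inj hz hz' hx'
        subst e2
        simp only [Prod.mk.injEq, true_and] at e1
        subst e1
        exact hK3 W' hW'
    · refine ⟨∅, by simp, by simp, fun b t z hz hx hxl hb => absurd ⟨b, t, z, hz, hx, hxl, hb⟩ h⟩
  choose K hK1 hK2 hK3 using hKex
  let C' : Set (List Bool) → Prop := fun W =>
    2 * P + 1 ≤ ((Finset.range (4 * P + 1)).filter (fun s => C (V W s))).card
  have hS : ∀ W, ∃ S : Finset ℕ, S ⊆ Finset.range (4 * P + 1) ∧ S.card = 2 * P + 1 ∧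
      ∀ s ∈ S, (C (V W s) ↔ C' W) := by
    intro W
    by_cases h : C' W
    · obtain ⟨S, hS1, hS2⟩ := Finset.exists_subset_card_eq h
      refine ⟨S, hS1.trans (Finset.filter_subset _ _), hS2, fun s hs => ?_⟩
      exact ⟨fun _ => h, fun _ => (Finset.mem_filter.1 (hS1 hs)).2⟩
    · have h' : 2 * P + 1 ≤ ((Finset.range (4 * P + 1)).filter (fun s => ¬ C (V W s))).card := by
        have := Finset.card_filter_add_card_filter_not (s := Finset.range (4 * P + 1))
          (fun s => C (V W s))
        rw [Finset.card_range] at this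
        have h2 : ¬ (2 * P + 1 ≤
          ((Finset.range (4 * P + 1)).filter (fun s => C (V W s))).card) := h
        omega
      obtain ⟨S, hS1, hS2⟩ := Finset.exists_subset_card_eq h'
      refine ⟨S, hS1.trans (Finset.filter_subset _ _), hS2, fun s hs => ?_⟩
      exact ⟨fun hc => absurd hc (Finset.mem_filter.1 (hS1 hs)).2, fun hc => absurd hc h⟩
  refine ⟨C', ?_, ?_, ?_⟩
  · intro W hW
    obtain ⟨S, hS1, hS2, hS3⟩ := hS W
    refine ⟨S.biUnion (fun s => (Q (V W s)).filter (fun x => x.length < L) ∪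
      (Q (V W s)).biUnion (fun x => K W x)), ?_, ?_, ?_⟩
    · refine Finset.card_biUnion_le.trans ?_
      calc ∑ s ∈ S, ((Q (V W s)).filter (fun x => x.length < L) ∪
            (Q (V W s)).biUnion (fun x => K W x)).card ≤ ∑ s ∈ S, (P + P * L) := by
            refine Finset.sum_le_sum fun s _ => ?_
            have hq := (hQ (V W s) (hF W hW s)).1
            refine (Finset.card_union_le _ _).trans (Nat.add_le_add ?_ ?_)
            · exact (Finset.card_filter_le _ _).trans hq
            · refine Finset.card_biUnion_le.trans ?_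
              calc ∑ x ∈ Q (V W s), (K W x).card ≤ ∑ x ∈ Q (V W s), L :=
                    Finset.sum_le_sum fun x _ => hK1 W x
                _ = (Q (V W s)).card * L := by rw [Finset.sum_const, smul_eq_mul]
                _ ≤ P * L := Nat.mul_le_mul_right _ hq
        _ = (2 * P + 1) * (P + P * L) := by rw [Finset.sum_const, hS2, smul_eq_mul]
    · intro x hx
      rw [Finset.mem_biUnion] at hx
      obtain ⟨s, -, hx⟩ := hx
      rw [Finset.mem_union, Finset.mem_filter, Finset.mem_biUnion] at hx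
      rcases hx with hx | ⟨y, -, hx⟩
      · exact hx.2
      · exact hK2 W y x hx
    · intro W' hW' hag
      obtain ⟨S', hS1', hS2', hS3'⟩ := hS W'
      -- a pair of compatible worlds
      have hbound : ∀ t : List Bool, L ≤ 2 * t.length + 2 → ∀ s < 4 * P + 1,
          s < 2 ^ t.length := by
        intro t ht s hs
        refine lt_of_lt_of_le hs (hP.trans (Nat.pow_le_pow_right (by norm_num) ?_))
        omega
      have hone : ∀ (U : Set (List Bool)) (x : List Bool), L ≤ x.length → ∀ s < 4 * P + 1,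
          ∀ s' < 4 * P + 1, x ∈ trunc φ L L' U s → x ∈ trunc φ L L' U s' → s = s' := by
        intro U x hx s hs s' hs' h h'
        obtain ⟨t, b, h1, h2, h3, h4, h5⟩ := trunc_code_of_mem hx h
        subst h5
        have h6 := ((mem_trunc_code (zeta_length _ _) h1).1 h').2.2.1
        exact zeta_inj (hbound t h1 s hs) (hbound t h1 s' hs') h6
      obtain ⟨s, hs, s', hs', hg1, hg2⟩ := good_pair hS2 hS2'
        (fun s s' => ∃ x ∈ Q (V W s), L ≤ x.length ∧ x ∈ trunc φ L L' W' s')
        (fun s s' => ∃ x ∈ Q (V W' s'), L ≤ x.length ∧ x ∈ trunc φ L L' W s)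
        (by
          intro s hs
          have hch : ∀ x : List Bool, ∃ k : ℕ, ∀ s' ∈ S', L ≤ x.length →
              x ∈ trunc φ L L' W' s' → s' = k := by
            intro x
            by_cases h : ∃ s' ∈ S', L ≤ x.length ∧ x ∈ trunc φ L L' W' s'
            · obtain ⟨k, hk, hk1, hk2⟩ := h
              exact ⟨k, fun s' hs' _ hx' => hone W' x hk1 s' (Finset.mem_range.1 (hS1' hs')) k
                (Finset.mem_range.1 (hS1' hk)) hx' hk2⟩
            · exact ⟨0, fun s' hs' hl hx' => absurd ⟨s', hs', hl, hx'⟩ h⟩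
          choose k hk using hch
          refine ⟨(Q (V W s)).image k, Finset.card_image_le.trans (hQ _ (hF W hW s)).1, ?_⟩
          rintro s' hs' ⟨x, hx, hxl, hxt⟩
          exact Finset.mem_image.2 ⟨x, hx, (hk x s' hs' hxl hxt).symm⟩)
        (by
          intro s' hs'
          have hch : ∀ x : List Bool, ∃ k : ℕ, ∀ s ∈ S, L ≤ x.length →
              x ∈ trunc φ L L' W s → s = k := by
            intro x
            by_cases h : ∃ s ∈ S, L ≤ x.length ∧ x ∈ trunc φ L L' W s
            · obtain ⟨k, hk, hk1, hk2⟩ := h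
              exact ⟨k, fun s hs _ hx' => hone W x hk1 s (Finset.mem_range.1 (hS1 hs)) k
                (Finset.mem_range.1 (hS1 hk)) hx' hk2⟩
            · exact ⟨0, fun s hs hl hx' => absurd ⟨s, hs, hl, hx'⟩ h⟩
          choose k hk using hch
          refine ⟨(Q (V W' s')).image k, Finset.card_image_le.trans (hQ _ (hF W' hW' s')).1, ?_⟩
          rintro s hs ⟨x, hx, hxl, hxt⟩
          exact Finset.mem_image.2 ⟨x, hx, (hk x s hs hxl hxt).symm⟩)
      push Not at hg1 hg2
      -- the combined world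
      let w : Set (List Bool) := {x | x ∈ trunc φ L L' W' s' ∨
        (L ≤ x.length ∧ x ∈ Q (V W s) ∧ x ∈ trunc φ L L' W s)}
      have hwag : Agree L W' w := by
        intro x hx
        rw [trunc_agree L L' W' s' x hx]
        constructor
        · exact fun h => Or.inl h
        · rintro (h | h)
          · exact h
          · omega
      -- the statements of the codes taken from `V W s` remain true in `W'`
      have hsup : ∀ b t z, z.length = t.length → L ≤ 2 * t.length + 2 →
          code (false, b) t z ∈ Q (V W s) → code (false, b) t z ∈ trunc φ L L' W s →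
          φ b t W' := by
        intro b t z hz ht hq hm
        have h1 := (mem_trunc_code hz ht).1 hm
        refine hK3 W (code (false, b) t z) b t z hz rfl
          (by rw [code_length _ _ _ hz]; exact h1.1) h1.2.2.2.1 W' fun y hy => ?_
        refine hag y ?_
        rw [Finset.mem_biUnion]
        refine ⟨s, hs, ?_⟩
        rw [Finset.mem_union, Finset.mem_biUnion]
        exact Or.inr ⟨_, hq, hy⟩
      have hleg : ∀ t : List Bool, 2 * t.length + 2 < L' → LegalAt φ t w := by
        refine legal_of hφ hLL hW'.1 hwag ?_ ?_ ?_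
        · intro b t z hz ht ht' hm
          rcases hm with hm | ⟨-, hm1, hm2⟩
          · exact ((mem_trunc_code hz ht).1 hm).2.2.2.1
          · exact hsup b t z hz ht hm1 hm2
        · rintro t ht ht' ⟨⟨z, hz, hm⟩, ⟨z', hz', hm'⟩⟩
          rcases hm with hm | ⟨-, hm1, hm2⟩
          · have h1 := ((mem_trunc_code hz ht).1 hm).2.2.2.2
            rcases hm' with hm' | ⟨-, hm1', hm2'⟩
            · exact h1 ((mem_trunc_code hz' ht).1 hm').2.2.2.1
            · exact h1 (hsup false t z' hz' ht hm1' hm2')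
          · rcases hm' with hm' | ⟨-, hm1', hm2'⟩
            · have h1 := ((mem_trunc_code hz' ht).1 hm').2.2.2.2
              exact h1 (hsup true t z hz ht hm1 hm2)
            · have h1 := ((mem_trunc_code hz ht).1 hm2).2.2.2.2
              exact h1 ((mem_trunc_code hz' ht).1 hm2').2.2.2.1
        · intro b t ht ht' hb hb'
          exact ⟨zeta t.length s', zeta_length _ _, Or.inl
            ((mem_trunc_code (zeta_length _ _) ht).2 ⟨ht', rfl, rfl, hb, hb'⟩)⟩
      obtain ⟨U, hU, hwU⟩ := exists_legal_ext hφ L' w hleg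
      have hUW : Agree L W' U := hwag.trans (hwU.mono hLle)
      have hUF : WW φ O t₀ U := by
        refine ⟨hU, hW'.2.1.trans (hUW.mono hL.le), ?_⟩
        rw [← hUW.has hL, ← hUW.has hL]
        exact hW'.2.2
      have e1 : C U ↔ C (V W s) := by
        refine (hQ _ (hF W hW s)).2.2 U hUF fun x hx => ?_
        have hxl := (hQ _ (hF W hW s)).2.1 x hx
        rw [← hwU x hxl]
        by_cases hxL : x.length < L
        · rw [← hwag x hxL, ← hVW W hW.1 s x hxL]
          refine hag x ?_
          rw [Finset.mem_biUnion]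
          refine ⟨s, hs, ?_⟩
          rw [Finset.mem_union, Finset.mem_filter]
          exact Or.inl ⟨hx, hxL⟩
        · rw [← (hV W s hW.1).2 x hxl]
          constructor
          · rintro (h | h)
            · exact absurd h (hg1 x hx (not_lt.1 hxL))
            · exact h.2.2
          · intro h
            exact Or.inr ⟨not_lt.1 hxL, hx, h⟩
      have e2 : C U ↔ C (V W' s') := by
        refine (hQ _ (hF W' hW' s')).2.2 U hUF fun x hx => ?_
        have hxl := (hQ _ (hF W' hW' s')).2.1 x hx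
        rw [← hwU x hxl, ← (hV W' s' hW'.1).2 x hxl]
        constructor
        · rintro (h | h)
          · exact h
          · exact absurd h.2.2 (hg2 x hx h.1)
        · intro h
          exact Or.inl h
      rw [← hS3 s hs, ← hS3' s' hs', ← e1, ← e2]
  · intro W hW hno
    have hall : ∀ s, C (V W s) := fun s => hpol.1 _ (hF W hW s) (by
      rw [← (hVW W hW.1 s).has hL]
      exact hno)
    change 2 * P + 1 ≤ _
    rw [Finset.filter_true_of_mem (fun s _ => hall s), Finset.card_range]
    omega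
  · intro W hW hno hC'
    have hall : ∀ s, ¬ C (V W s) := fun s => hpol.2 _ (hF W hW s) (by
      rw [← (hVW W hW.1 s).has hL]
      exact hno)
    have h0 : ((Finset.range (4 * P + 1)).filter (fun s => C (V W s))) = ∅ :=
      Finset.filter_false_of_mem (fun s _ => hall s)
    have h1 : 2 * P + 1 ≤ ((Finset.range (4 * P + 1)).filter (fun s => C (V W s))).card := hC'
    rw [h0, Finset.card_empty] at h1
    omega

end Pool.Agent.H578R2
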