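import Pool.Agent.H654R2.MED.GridSys
import Pool.Agent.H671R2.PolyAuto

/-!
# The adjacency matrix of the graph of a list of clauses
-/

namespace Pool.Agent.NPC.MEDE

open Pool.Agent.H654R2.MED Pool.Agent.NPC.R671

/-- Labels of vertices: kind, name, phase, value, index. -/
abbrev Lb : Type := ℕ × ((ℕ × ℕ × Bool) × (Bool × (Bool × ℕ)))

/-- The name of a register. -/
def nm {W : ℕ} (r : Fin 16 × Fin W × Bool) : ℕ × ℕ × Bool := (r.1.val, r.2.1.val, r.2.2)

theorem nm_inj {W : ℕ} (r r' : Fin 16 × Fin W × Bool) : nm r = nm r' ↔ r = r' := by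
  obtain ⟨a, b, c⟩ := r
  obtain ⟨a', b', c'⟩ := r'
  simp [nm, Prod.ext_iff, Fin.ext_iff]

/-- the dummy name -/
abbrev n0 : ℕ × ℕ × Bool := (0, 0, false)

/-- The label of a vertex. -/
def code {W m : ℕ} : Vx (Fin 16 × Fin W × Bool) (Fin 5) (Fin m) → Lb
  | .sg r => (0, nm r, false, false, 0)
  | .x r p v => (1, nm r, p, v, 0)
  | .s0 => (2, n0, false, false, 0)
  | .h p => (3, n0, p, false, 0)
  | .u => (4, n0, false, false, 0)
  | .T p j => (5, n0, p, false, j.val)
  | .om => (6, n0, false, false, 0)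
  | .m p => (7, n0, p, false, 0)
  | .ab r p => (8, nm r, p, false, 0)
  | .K c p => (9, n0, p, false, c.val)

theorem code_inj {W m : ℕ} : Function.Injective (code (W := W) (m := m)) := by
  intro a b h
  cases a <;> cases b <;> first
    | rfl
    | (exfalso; revert h; simp [code]; done)
    | (simp [code, nm_inj, Fin.val_inj] at h; simp [h])

/-- adjacency of labels, one direction -/
def ea (cl : List (ℕ × List ((ℕ × ℕ × Bool) × Bool))) (a b : Lb) : Bool :=
  let k := a.1
  let k' := b.1
  let n := a.2.1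
  let n' := b.2.1
  let p := a.2.2.1
  let p' := b.2.2.1
  let v := a.2.2.2.1
  let v' := b.2.2.2.1
  let i := a.2.2.2.2
  let i' := b.2.2.2.2
  let c := cl.getD i (0, [])
  (decide (k = 0) && (decide (k' = 1) && decide (n = n'))) ||
  (decide (k = 1) && (decide (k' = 1) && (decide (n = n') &&
    (bif decide (n.1 < 3) then xor (xor p p') (xor v v') else xor p p')))) ||
  (decide (k = 2) && (decide (k' = 3) || decide (k' = 4))) ||
  (decide (k = 3) && ((decide (k' = 3) && xor p p') || decide (k' = 4))) ||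
  (decide (k = 5) && ((decide (k' = 5) && !(decide (p = p') && decide (i = i'))) ||
    (decide (k' = 1) || decide (k' = 4)))) ||
  (decide (k = 6) && (decide (k' = 1) || (decide (k' = 3) || (decide (k' = 4) ||
    (decide (k' = 5) || (decide (k' = 7) || (decide (k' = 8) || decide (k' = 9)))))))) ||
  (decide (k = 4) && (decide (k' = 1) || (decide (k' = 8) || decide (k' = 9)))) ||
  (decide (k = 7) && ((decide (k' = 3) && decide (p = p')) || ((decide (k' = 5) && xor p p') ||
    ((decide (k' = 7) && xor p p') || (decide (k' = 8) || decide (k' = 9)))))) ||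
  (decide (k = 8) && ((decide (k' = 1) && (decide (n = n') && decide (p = p'))) ||
    (decide (k' = 3) && xor p p'))) ||
  (decide (k = 9) && ((decide (k' = 1) && (decide (p = p') && decide ((n', v') ∈ c.2))) ||
    ((decide (k' = 3) && xor p p') ||
    (decide (k' = 5) && (decide (p = p') && (decide (0 < c.1) && (decide (c.1 ≤ 5) &&
      !decide (c.1 = i' + 1))))))))

theorem nm_fst {W : ℕ} (r : Fin 16 × Fin W × Bool) : (nm r).1 = r.1.val := rfl

theorem ea_code {W : ℕ} (cl : List Cl) (a b : Vx (Fin 16 × Fin W × Bool) (Fin 5) (Fin cl.length)) :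
    ea cl (code a) (code b) = (mkSys W cl).e a b := by
  cases a <;> cases b <;> simp [code, ea, Sys.e, nm_inj]
  · simp only [mkSys, nm_fst]
    rfl
  · simp only [Fin.val_inj]
    congr
  · congr
  · congr
  · simp only [mkSys, nm]
    congr
  · rename_i c p p' j
    simp only [mkSys, Fin.getElem_fin]
    by_cases hc : 0 < cl[c.val].1 ∧ cl[c.val].1 ≤ 5
    · rw [dif_pos hc]
      simp only [hc.1, hc.2, decide_true, Bool.true_and, Option.isSome_some, Option.some.injEq,
        Fin.ext_iff]
      congr 3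
      apply propext
      omega
    · rw [dif_neg hc]
      simp only [Option.isSome_none, Bool.false_and, Bool.and_false]
      by_cases h1 : 0 < cl[c.val].1
      · have h2 : ¬ cl[c.val].1 ≤ 5 := fun h => hc ⟨h1, h⟩
        simp [h2]
      · simp [h1]

/-- adjacency of labels -/
def ad (cl : List (ℕ × List ((ℕ × ℕ × Bool) × Bool))) (a b : Lb) : Bool :=
  !decide (a = b) && (ea cl a b || ea cl b a)

theorem ad_symm (cl : List Cl) (a b : Lb) : ad cl a b = ad cl b a := by
  unfold ad
  rw [Bool.or_comm]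
  congr 2
  exact decide_eq_decide.2 eq_comm

theorem ad_self (cl : List Cl) (a : Lb) : ad cl a a = false := by
  simp [ad]

theorem ad_code {W : ℕ} (cl : List Cl) (a b : Vx (Fin 16 × Fin W × Bool) (Fin 5) (Fin cl.length)) :
    ad cl (code a) (code b) = true ↔ (mkSys W cl).graph.Adj a b := by
  unfold ad
  rw [ea_code, ea_code]
  show _ ↔ ((mkSys W cl).e a b || (mkSys W cl).e b a) = true
  constructor
  · intro h
    rw [Bool.and_eq_true] at h
    exact h.2
  · intro h
    rw [Bool.and_eq_true]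
    refine ⟨?_, h⟩
    have hne : a ≠ b := by
      rintro rfl
      rw [(mkSys W cl).e_irrefl] at h
      exact absurd h (by decide)
    have : code a ≠ code b := fun h' => hne (code_inj h')
    simp [this]

/-- the valid labels -/
def valid (W m : ℕ) (z : Lb) : Bool :=
  let k := z.1
  let n := z.2.1
  let p := z.2.2.1
  let v := z.2.2.2.1
  let i := z.2.2.2.2
  (bif decide (k = 0) || (decide (k = 1) || decide (k = 8)) then decide (n.2.1 < W)
    else decide (n = n0)) &&
  ((decide (k = 1) || (decide (k = 3) || (decide (k = 5) || (decide (k = 7) || (decide (k = 8) ||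
    decide (k = 9)))))) || !p) &&
  (decide (k = 1) || !v) &&
  (bif decide (k = 5) then decide (i < 5) else bif decide (k = 9) then decide (i < m)
    else decide (i = 0))

/-- all labels -/
def vs (W : ℕ) (cl : List (ℕ × List ((ℕ × ℕ × Bool) × Bool))) : List Lb :=
  ((List.range 10) ×ˢ (((List.range 16) ×ˢ ((List.range (W + 1)) ×ˢ [false, true])) ×ˢ
    ([false, true] ×ˢ ([false, true] ×ˢ (List.range (cl.length + 5)))))).filter
    (valid W cl.length)

theorem vs_nodup (W : ℕ) (cl : List Cl) : (vs W cl).Nodup := by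
  unfold vs
  apply List.Nodup.filter
  have hb : [false, true].Nodup := by decide
  exact List.nodup_range.product ((List.nodup_range.product (List.nodup_range.product hb)).product
    (hb.product (hb.product List.nodup_range)))

theorem mem_bools (b : Bool) : b ∈ [false, true] := by cases b <;> simp

theorem mem_vs {W : ℕ} {cl : List Cl} (z : Lb) : z ∈ vs W cl ↔
    ∃ x : Vx (Fin 16 × Fin W × Bool) (Fin 5) (Fin cl.length), code x = z := by
  unfold vs
  rw [List.mem_filter]
  constructor
  · rintro ⟨hm, hv⟩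
    obtain ⟨k, ⟨a, b, c⟩, p, v, i⟩ := z
    simp only [List.mem_product, List.mem_range] at hm
    obtain ⟨hk, ⟨ha, hb, -⟩, -, -, hi⟩ := hm
    interval_cases k

    all_goals simp [valid] at hv
    · obtain ⟨⟨⟨h1, rfl⟩, rfl⟩, rfl⟩ := hv
      exact ⟨.sg (⟨a, ha⟩, ⟨b, h1⟩, c), rfl⟩
    · obtain ⟨h1, rfl⟩ := hv
      exact ⟨.x (⟨a, ha⟩, ⟨b, h1⟩, c) p v, rfl⟩
    · obtain ⟨⟨⟨⟨rfl, rfl, rfl⟩, rfl⟩, rfl⟩, rfl⟩ := hv
      exact ⟨.s0, rfl⟩
    · obtain ⟨⟨⟨rfl, rfl, rfl⟩, rfl⟩, rfl⟩ := hv
      exact ⟨.h p, rfl⟩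
    · obtain ⟨⟨⟨⟨rfl, rfl, rfl⟩, rfl⟩, rfl⟩, rfl⟩ := hv
      exact ⟨.u, rfl⟩
    · obtain ⟨⟨⟨rfl, rfl, rfl⟩, rfl⟩, h1⟩ := hv
      exact ⟨.T p ⟨i, h1⟩, rfl⟩
    · obtain ⟨⟨⟨⟨rfl, rfl, rfl⟩, rfl⟩, rfl⟩, rfl⟩ := hv
      exact ⟨.om, rfl⟩
    · obtain ⟨⟨⟨rfl, rfl, rfl⟩, rfl⟩, rfl⟩ := hv
      exact ⟨.m p, rfl⟩
    · obtain ⟨⟨h1, rfl⟩, rfl⟩ := hv
      exact ⟨.ab (⟨a, ha⟩, ⟨b, h1⟩, c) p, rfl⟩
    · obtain ⟨⟨⟨rfl, rfl, rfl⟩, rfl⟩, h1⟩ := hv
      exact ⟨.K ⟨i, h1⟩ p, rfl⟩
  · rintro ⟨x, rfl⟩
    cases x <;> simp [code, valid, nm, n0, List.mem_range]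
    · rename_i r p v
      cases p <;> cases v <;> simp
    · rename_i p j
      have h1 : j.val < cl.length + 5 := by omega
      cases p <;> simp [h1]
    · rename_i c p
      have h1 : c.val < cl.length + 5 := by omega
      cases p <;> simp [h1]

/-- Strategies are transported by isomorphisms. -/
theorem strategy_iso {V V' : Type} {G : SimpleGraph V} {G' : SimpleGraph V'} (e : V ≃ V')
    (he : ∀ a b, G.Adj a b ↔ G'.Adj (e a) (e b)) {k : ℕ} {F : Set (Finset V)}
    (h : IsStrategy G k F) : ∃ F', IsStrategy G' k F' := by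
  obtain ⟨h1, h2, h3⟩ := h
  refine ⟨(fun C => C.map e.toEmbedding) '' F, h1.image _, ?_, ?_⟩
  · rintro _ ⟨C, hC, rfl⟩
    rw [Finset.card_map]
    exact h2 C hC
  · rintro _ ⟨C, hC, rfl⟩ v
    obtain ⟨C', hC', hv, hCC⟩ := h3 C hC (e.symm v)
    refine ⟨_, ⟨C', hC', rfl⟩, ?_, ?_⟩
    · rw [Finset.mem_map]
      exact ⟨_, hv, by simp⟩
    · rcases hCC with rfl | ⟨f, hf⟩
      · exact Or.inl rfl
      · right
        have e1 : ∀ D : Finset V, ∀ x : V', x ∈ D.map e.toEmbedding ↔ e.symm x ∈ D := by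
          intro D x
          rw [Finset.mem_map]
          constructor
          · rintro ⟨y, hy, rfl⟩
            simpa using hy
          · intro hx
            exact ⟨_, hx, by simp⟩
        let g : ∀ D : Finset V, {x // x ∈ D.map e.toEmbedding} ≃ {x // x ∈ D} := fun D =>
          { toFun := fun x => ⟨e.symm x.1, (e1 D x.1).1 x.2⟩
            invFun := fun y => ⟨e y.1, (e1 D _).2 (by simp)⟩
            left_inv := fun x => by simp
            right_inv := fun y => by simp }
        refine ⟨((g C).trans f).trans (g C').symm, fun u => ?_⟩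
        have h4 : ((((g C).trans f).trans (g C').symm) u : V') = e (f (g C u)) := rfl
        rw [h4]
        rcases hf (g C u) with h5 | h5
        · left
          rw [h5]
          show e (e.symm u.1) = _
          simp
        · right
          have h6 := (he _ _).1 h5
          have h7 : e ((g C u : {x // x ∈ C}) : V) = u.1 := by
            show e (e.symm u.1) = _
            simp
          rwa [h7] at h6

theorem gammaM_le {n K : ℕ} (G : SimpleGraph (Fin n)) :
    gammaM G ≤ K ↔ ∃ k, k ≤ K ∧ ∃ F, IsStrategy G k F := by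
  unfold gammaM
  constructor
  · intro h
    have hne : {k | ∃ F, IsStrategy G k F}.Nonempty := by
      refine ⟨n, {Finset.univ}, ⟨_, rfl⟩, ?_, ?_⟩
      · rintro C rfl
        simp
      · rintro C rfl v
        exact ⟨_, rfl, Finset.mem_univ _, Or.inl rfl⟩
    exact ⟨_, h, Nat.sInf_mem hne⟩
  · rintro ⟨k, hk, F, hF⟩
    exact le_trans (Nat.sInf_le ⟨F, hF⟩) hk

/-- The instance: the adjacency matrix of the graph and the number of guards. -/
def encG (W : ℕ) (cl : List (ℕ × List ((ℕ × ℕ × Bool) × Bool))) : List (List Bool) × ℕ :=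
  ((vs W cl).map (fun u => (vs W cl).map (fun w => ad cl u w)), 32 * W + 2)

theorem encG_correct (W : ℕ) (cl : List Cl) : MED (encG W cl) ↔
    ∃ k, k ≤ Fintype.card (Fin 16 × Fin W × Bool) + 2 ∧ ∃ F, IsStrategy (mkSys W cl).graph k F := by
  have hcard : Fintype.card (Fin 16 × Fin W × Bool) + 2 = 32 * W + 2 := by
    simp only [Fintype.card_prod, Fintype.card_fin, Fintype.card_bool]
    ring
  rw [hcard]
  obtain ⟨e, he⟩ := exists_equiv (vs W cl) (vs_nodup W cl)
    (code (W := W) (m := cl.length)) code_inj mem_vs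
  have hadj : ∀ i j, (listGraph (vs W cl) (ad cl) (ad_symm cl) (ad_self cl)).Adj i j ↔
      (mkSys W cl).graph.Adj (e i) (e j) := by
    intro i j
    rw [← ad_code, he, he]
    rfl
  have hadj' : ∀ a b, (mkSys W cl).graph.Adj a b ↔
      (listGraph (vs W cl) (ad cl) (ad_symm cl) (ad_self cl)).Adj (e.symm a) (e.symm b) := by
    intro a b
    rw [hadj]
    simp
  constructor
  · rintro ⟨n, G, hG, hk⟩
    rw [encG, ← adjMatrix_listGraph (vs W cl) (ad cl) (ad_symm cl) (ad_self cl)] at hG
    have hn : n = (vs W cl).length := by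
      have := congrArg List.length hG
      simpa [adjMatrix] using this
    subst hn
    have hG' := adjMatrix_inj hG
    subst hG'
    obtain ⟨k, hk', F, hF⟩ := (gammaM_le _).1 hk
    obtain ⟨F', hF'⟩ := strategy_iso e hadj hF
    exact ⟨k, hk', F', hF'⟩
  · rintro ⟨k, hk, F, hF⟩
    obtain ⟨F', hF'⟩ := strategy_iso e.symm hadj' hF
    exact ⟨_, listGraph (vs W cl) (ad cl) (ad_symm cl) (ad_self cl),
      adjMatrix_listGraph _ _ _ _, (gammaM_le _).2 ⟨k, hk, F', hF'⟩⟩

variable {α : Type} [TEnc α]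

theorem poly_ea {cl : α → List Cl} {a b : α → Lb} (hcl : Poly cl) (ha : Poly a) (hb : Poly b) :
    Poly (fun x => ea (cl x) (a x) (b x)) := by
  unfold ea
  fun_prop

theorem poly_ad {cl : α → List Cl} {a b : α → Lb} (hcl : Poly cl) (ha : Poly a) (hb : Poly b) :
    Poly (fun x => ad (cl x) (a x) (b x)) := by
  have h1 := poly_ea hcl ha hb
  have h2 := poly_ea hcl hb ha
  unfold ad
  fun_prop

theorem poly_valid {W m : α → ℕ} {z : α → Lb} (hW : Poly W) (hm : Poly m) (hz : Poly z) :
    Poly (fun x => valid (W x) (m x) (z x)) := by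
  unfold valid
  fun_prop

theorem poly_vs {W : α → ℕ} {cl : α → List Cl} (hW : UPoly W) (hcl : Poly cl) :
    Poly (fun x => vs (W x) (cl x)) := by
  have hW' := hW.toPoly
  have h1 : Poly (fun x => List.range (W x + 1)) := (hW.add (UPoly.const 1)).range
  have h2 : Poly (fun x => List.range ((cl x).length + 5)) :=
    ((UPoly.length hcl).add (UPoly.const 5)).range
  have h3 : Poly (fun x => ((List.range 10) ×ˢ (((List.range 16) ×ˢ ((List.range (W x + 1)) ×ˢ
      [false, true])) ×ˢ ([false, true] ×ˢ ([false, true] ×ˢ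
      (List.range ((cl x).length + 5))))) : List Lb)) := by
    fun_prop
  unfold vs
  refine Poly.filter h3 ?_
  exact poly_valid (z := fun p : α × Lb => p.2) (by fun_prop) (by fun_prop) (by fun_prop)

theorem encG_poly {W : α → ℕ} {cl : α → List Cl} (hW : UPoly W) (hcl : Poly cl) :
    Poly (fun x => encG (W x) (cl x)) := by
  have hvs := poly_vs hW hcl
  have hW' := hW.toPoly
  have h1 : Poly (fun x => (vs (W x) (cl x)).map
      (fun u => (vs (W x) (cl x)).map (fun w => ad (cl x) u w))) := by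
    refine Poly.map hvs ?_
    refine Poly.map (l := fun p : α × Lb => vs (W p.1) (cl p.1)) (hvs.comp (Poly.fst Poly.id)) ?_
    exact poly_ad (cl := fun q : (α × Lb) × Lb => cl q.1.1) (a := fun q => q.1.2)
      (b := fun q => q.2) (by fun_prop) (by fun_prop) (by fun_prop)
  unfold encG
  exact Poly.pair h1 (by fun_prop)

end Pool.Agent.NPC.MEDE
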