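import Pool.Agent.H578R2.Sem

/-!
The machines: one which guesses a hidden code string, and one which performs the search guided
by a separator.
-/

namespace Pool.Agent.H578R2

theorem PB.exists_exp {f : ℕ → ℕ} (hf : PB f) : ∃ d, ∀ n, f n ≤ n ^ d + d := by
  obtain ⟨k, hk⟩ := hf
  refine ⟨3 ^ k + 2 * k, fun n => (hk n).trans ?_⟩
  rcases Nat.lt_or_ge n 2 with hn | hn
  · have h1 : (n + 2) ^ k ≤ 3 ^ k := Nat.pow_le_pow_left (by omega) k
    exact h1.trans ((Nat.le_add_right _ _).trans (Nat.le_add_left _ _))
  · calc (n + 2) ^ k ≤ (n * n) ^ k := Nat.pow_le_pow_left (by nlinarith) k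
      _ = n ^ (2 * k) := by rw [← pow_two, ← pow_mul]
      _ ≤ n ^ (3 ^ k + 2 * k) := Nat.pow_le_pow_right (by omega) (Nat.le_add_left _ _)
      _ ≤ _ := Nat.le_add_right _ _

/-- stacks `0` and `1` -/
def st (s s' : List Bool) : ℕ → List Bool := fun k => if k = 0 then s else if k = 1 then s' else []

theorem st_zero (s s' : List Bool) : st s s' 0 = s := rfl

theorem st_one (s s' : List Bool) : st s s' 1 = s' := rfl

theorem update_st_zero (s s' r : List Bool) : Function.update (st s s') 0 r = st r s' := by
  funext k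
  by_cases hk : k = 0
  · subst hk; simp [st]
  · rw [Function.update_of_ne hk]
    simp [st, hk]

theorem update_st_one (s s' r : List Bool) : Function.update (st s s') 1 r = st s r := by
  funext k
  by_cases hk : k = 1
  · subst hk; simp [st]
  · rw [Function.update_of_ne hk]
    simp [st, hk]

/-! ### The guessing machine -/

inductive GQ : Type
  | a | b0 (b : Bool) | b1 (b : Bool) | b2 | b3 (g : Bool) | e0 | e1 | e2 | fin (b : Bool)
  deriving Fintype

def gact (τ : Bool × Bool) : GQ → Act GQ
  | .a => .read 0 (fun o => match o with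
      | none => .e0
      | some b => .b0 b)
  | .b0 b => .pop 0 (.b1 b)
  | .b1 b => .push 1 b .b2
  | .b2 => .guess .b3
  | .b3 g => .push 1 g .a
  | .e0 => .push 1 τ.2 .e1
  | .e1 => .push 1 τ.1 .e2
  | .e2 => .ask 1 .fin
  | .fin b => .halt b

def GM (τ : Bool × Bool) : Machine := ⟨GQ, inferInstance, .a, gact τ⟩

def gc (τ : Bool × Bool) (q : GQ) (s s' : List Bool) : (GM τ).Config := (q, st s s')

theorem gc_init (τ : Bool × Bool) (x : List Bool) : (GM τ).init x = gc τ .a x [] := by
  rw [Machine.init, gc]
  congr 1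
  funext k
  simp only [st]
  split
  · rfl
  · simp

/-- the guessed string -/
def zw : (ℕ → Bool) → ℕ → List Bool
  | _, 0 => []
  | w, n + 1 => w 3 :: zw (fun i => w (i + 5)) n

theorem zw_length : ∀ (w : ℕ → Bool) (n : ℕ), (zw w n).length = n
  | _, 0 => rfl
  | w, n + 1 => by rw [zw, List.length_cons, zw_length]

theorem exists_zw : ∀ z : List Bool, ∃ w, zw w z.length = z
  | [] => ⟨fun _ => false, rfl⟩
  | b :: z => by
      obtain ⟨w, hw⟩ := exists_zw z
      refine ⟨fun i => if i = 3 then b else w (i - 5), ?_⟩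
      rw [List.length_cons, zw]
      simp only [if_true]
      congr 1

theorem gm_five (τ : Bool × Bool) (A : Set (List Bool)) (b : Bool) (t acc : List Bool)
    (w : ℕ → Bool) : (GM τ).run A 5 w (gc τ .a (b :: t) acc) = gc τ .a t (w 3 :: b :: acc) := by
  simp only [Machine.run, Machine.step, GM, gc, gact, st_zero, st_one, List.head?_cons,
    List.tail_cons, update_st_zero, update_st_one]

theorem gm_loop (τ : Bool × Bool) (A : Set (List Bool)) : ∀ (t acc : List Bool) (w : ℕ → Bool),
    (GM τ).run A (5 * t.length) w (gc τ .a t acc) = gc τ .a [] (mix acc t (zw w t.length))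
  | [], acc, w => by simp [Machine.run, mix]
  | b :: t, acc, w => by
      have e : 5 * (b :: t).length = 5 + 5 * t.length := by rw [List.length_cons]; ring
      rw [e, Machine.run_add, gm_five, gm_loop τ A t (w 3 :: b :: acc) (fun i => w (i + 5)),
        List.length_cons, zw, mix]

theorem gm_four (τ : Bool × Bool) (A : Set (List Bool)) (acc : List Bool)
    (w : ℕ → Bool) : (GM τ).run A 4 w (gc τ .a [] acc) =
      gc τ (.fin (bit A (τ.1 :: τ.2 :: acc))) [] (τ.1 :: τ.2 :: acc) := by
  simp only [Machine.run, Machine.step, GM, gc, gact, st_zero, st_one, List.head?_nil,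
    update_st_one]
  rfl

theorem gm_run (τ : Bool × Bool) (A : Set (List Bool)) (t : List Bool) (w : ℕ → Bool) :
    (GM τ).run A (5 * t.length + 4) w ((GM τ).init t) =
      gc τ (.fin (bit A (code τ t (zw w t.length)))) [] (code τ t (zw w t.length)) := by
  rw [Machine.run_add, gc_init, gm_loop, gm_four]
  rfl

theorem has_inNP (τ : Bool × Bool) (A : Set (List Bool)) : InNP A {t | Has τ t A} := by
  obtain ⟨d, hd⟩ := PB.exists_exp (((PB.const 5).mul PB.id).add (PB.const 4))
  refine ⟨GM τ, d, fun x => ?_⟩
  have hrun : ∀ w, (GM τ).run A (x.length ^ d + d) w ((GM τ).init x) =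
      gc τ (.fin (bit A (code τ x (zw w x.length)))) [] (code τ x (zw w x.length)) := by
    intro w
    rw [(GM τ).run_of_le A (hd x.length) w, gm_run]
    rw [gm_run]
    exact ⟨_, rfl⟩
  constructor
  · intro w
    rw [hrun]
    exact ⟨_, rfl⟩
  · constructor
    · rintro ⟨z, hz, hm⟩
      obtain ⟨w, hw⟩ := exists_zw z
      refine ⟨w, ?_⟩
      rw [hrun]
      rw [hz] at hw
      rw [hw]
      change Act.halt _ = Act.halt true
      rw [bit_eq_true.2 hm]
    · rintro ⟨w, hw⟩
      rw [hrun] at hw
      have h1 : Act.halt (bit A (code τ x (zw w x.length))) = (Act.halt true : Act GQ) := hw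
      rw [Act.halt.injEq, bit_eq_true] at h1
      exact ⟨zw w x.length, zw_length _ _, h1⟩

/-! ### The search machine -/

inductive SQ (e : ℕ) : Type
  | start | load (i : Fin (e + 1))
  | q0 | q1 | q2 (b : Bool) | q3 (b : Bool) | q4 (b : Bool)
  | d0 | d1 | d2 (b : Bool) | d3 (b : Bool) | d4
  | f0 | f1 | fin (b : Bool)
  deriving Fintype

def sact (e : ℕ) : SQ e → Act (SQ e)
  | .start => .push 0 false (.load ⟨e, Nat.lt_succ_self e⟩)
  | .load i => if (i : ℕ) = 0 then .push 0 false .q0
      else .push 0 true (.load ⟨(i : ℕ) - 1, lt_of_le_of_lt (Nat.sub_le _ _) i.2⟩)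
  | .q0 => .push 0 false .q1
  | .q1 => .ask 0 .q2
  | .q2 b => .pop 0 (.q3 b)
  | .q3 b => .push 0 b (.q4 b)
  | .q4 b => .push 0 true (if b then .f0 else .d0)
  | .d0 => .push 0 false .d1
  | .d1 => .ask 0 .d2
  | .d2 b => .pop 0 (.d3 b)
  | .d3 b => .push 0 b .d4
  | .d4 => .push 0 true .q0
  | .f0 => .push 0 false .f1
  | .f1 => .ask 0 .fin
  | .fin b => .halt b

def SM (e : ℕ) : Machine := ⟨SQ e, inferInstance, .start, sact e⟩

def sc (e : ℕ) (q : SQ e) (s : List Bool) : (SM e).Config := (q, st s [])

theorem sc_init (e : ℕ) (x : List Bool) : (SM e).init x = sc e .start x := by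
  rw [Machine.init, sc]
  congr 1
  funext k
  simp only [st]
  split
  · rfl
  · simp

theorem SM_det (e : ℕ) : (SM e).Det := by
  intro q f h
  have h : sact e q = .guess f := h
  cases q with
  | load i =>
    by_cases hi : (i : ℕ) = 0
    · rw [sact, if_pos hi] at h
      exact absurd h (by simp)
    · rw [sact, if_neg hi] at h
      exact absurd h (by simp)
  | _ => simp only [sact] at h; exact absurd h (by simp)

theorem bit_join (T O : Set (List Bool)) (s : List Bool) : bit (join T O) (false :: s) = bit T s := by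
  have : false :: s ∈ join T O ↔ s ∈ T := by
    constructor
    · rintro (⟨x, hx, h⟩ | ⟨x, hx, h⟩)
      · simp only [List.cons.injEq, true_and] at h
        rw [h]
        exact hx
      · simp at h
    · intro h
      exact Or.inl ⟨s, h, rfl⟩
  cases h : bit T s
  · rw [← Bool.not_eq_true, bit_eq_true, this, ← bit_eq_true, h]
    simp
  · rw [bit_eq_true, this, ← bit_eq_true, h]

theorem sm_load_zero (e : ℕ) (A : Set (List Bool)) (hi : 0 < e + 1) (g : Bool) (s : List Bool) :
    (SM e).step A g (sc e (.load ⟨0, hi⟩) s) = sc e .q0 (false :: s) := by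
  simp only [Machine.step, SM, sc, sact, if_true, update_st_zero, st_zero]

theorem sm_load_succ (e : ℕ) (A : Set (List Bool)) (i : ℕ) (hi : i + 1 < e + 1) (g : Bool)
    (s : List Bool) : (SM e).step A g (sc e (.load ⟨i + 1, hi⟩) s) =
      sc e (.load ⟨i, by omega⟩) (true :: s) := by
  simp only [Machine.step, SM, sc, sact, Nat.add_eq_zero_iff, one_ne_zero, and_false, if_false,
    update_st_zero, st_zero, Nat.add_sub_cancel]

theorem sm_load (e : ℕ) (A : Set (List Bool)) : ∀ (i : ℕ) (hi : i < e + 1) (w : ℕ → Bool)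
    (s : List Bool), (SM e).run A (i + 1) w (sc e (.load ⟨i, hi⟩) s) =
      sc e .q0 (false :: (List.replicate i true ++ s))
  | 0, hi, w, s => by
      rw [Machine.run, sm_load_zero]
      rfl
  | i + 1, hi, w, s => by
      rw [Machine.run, sm_load_succ, sm_load e A i (by omega)]
      congr 2
      rw [List.replicate_succ']
      simp

theorem sm_stop (e : ℕ) (T O : Set (List Bool)) (w : ℕ → Bool) (s : List Bool) :
    (SM e).run (join T O) 5 w (sc e .q0 s) =
      sc e (if bit T s then SQ.f0 else SQ.d0) (true :: bit T s :: s) := by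
  rw [← bit_join T O s]
  simp only [Machine.run, Machine.step, SM, sc, sact, st_zero, List.tail_cons, update_st_zero]
  rfl

theorem sm_data (e : ℕ) (T O : Set (List Bool)) (w : ℕ → Bool) (s : List Bool) :
    (SM e).run (join T O) 5 w (sc e .d0 s) = sc e .q0 (true :: bit T s :: s) := by
  rw [← bit_join T O s]
  simp only [Machine.run, Machine.step, SM, sc, sact, st_zero, List.tail_cons, update_st_zero]
  rfl

theorem sm_final (e : ℕ) (T O : Set (List Bool)) (w : ℕ → Bool) (s : List Bool) :
    (SM e).run (join T O) 2 w (sc e .f0 s) = sc e (.fin (bit T s)) (false :: s) := by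
  rw [← bit_join T O s]
  simp only [Machine.run, Machine.step, SM, sc, sact, st_zero, update_st_zero]
  rfl

theorem sm_start (e : ℕ) (A : Set (List Bool)) (g : Bool) (s : List Bool) :
    (SM e).step A g (sc e .start s) = sc e (.load ⟨e, Nat.lt_succ_self e⟩) (false :: s) := by
  simp only [Machine.step, SM, sc, sact, update_st_zero, st_zero]

theorem sm_rounds (e : ℕ) (T O : Set (List Bool)) (x : List Bool) (J : ℕ)
    (hstop : ∀ j < J, encT e x (ans T e x j) ∉ T) : ∀ (j : ℕ) (_ : j ≤ J) (w : ℕ → Bool),
    (SM e).run (join T O) (10 * j) w (sc e .q0 (encT e x [])) =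
      sc e .q0 (encT e x (ans T e x j))
  | 0, _, w => rfl
  | j + 1, hj, w => by
      have e1 : 10 * (j + 1) = 10 * j + (5 + 5) := by ring
      have h1 : bit T (encT e x (ans T e x j)) = false := by
        rw [← Bool.not_eq_true, bit_eq_true]
        exact hstop j (by omega)
      have h2 : (true :: false :: encT e x (ans T e x j)) = encT e x (false :: ans T e x j) := rfl
      rw [e1, Machine.run_add, sm_rounds e T O x J hstop j (by omega), Machine.run_add, sm_stop,
        h1, if_neg (by simp), h2, sm_data]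
      rfl

theorem sm_run (e : ℕ) (T O : Set (List Bool)) (x : List Bool) (J : ℕ)
    (hstop : ∀ j < J, encT e x (ans T e x j) ∉ T) (hJ : encT e x (ans T e x J) ∈ T)
    (w : ℕ → Bool) :
    (SM e).run (join T O) (1 + ((e + 1) + (10 * J + (5 + 2)))) w ((SM e).init x) =
      sc e (.fin (bit T (encT e x (true :: ans T e x J))))
        (false :: encT e x (true :: ans T e x J)) := by
  have h2 : false :: (List.replicate e true ++ false :: x) = encT e x [] := rfl
  have h3 : (true :: true :: encT e x (ans T e x J)) = encT e x (true :: ans T e x J) := rfl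
  rw [Machine.run_add, sc_init, Machine.run_one, sm_start, Machine.run_add, sm_load,
    Machine.run_add, h2, sm_rounds e T O x J hstop J le_rfl, Machine.run_add, sm_stop,
    bit_eq_true.2 hJ, if_pos rfl, h3, sm_final]

theorem search_inP {O T : Set (List Bool)} (hO : Legal phi O)
    (hT1 : ∀ t, Has (false, true) t O → t ∈ T) (hT2 : ∀ t, Has (false, false) t O → t ∉ T)
    {L : Set (List Bool)} (hL : InNP O L) : InP (join T O) L := by
  obtain ⟨e, he⟩ := hL.exists_index
  have hpb : PB (fun n => 1 + ((e + 1) + (10 * ((n + tb e n) ^ 2 + tb e n) + (5 + 2)))) :=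
    (PB.const 1).add ((PB.const (e + 1)).add ((((PB.const 10).mul
      (((PB.id.add (PB.tb e)).pow 2).add (PB.tb e)))).add (PB.const (5 + 2))))
  obtain ⟨d, hd⟩ := hpb.exists_exp
  refine ⟨SM e, d, SM_det e, fun x => ?_⟩
  have h1 : ∀ j < pad e x + tb e x.length, encT e x (ans T e x j) ∉ T := by
    intro j hj hc
    have := (stop_spec hO hT1 hT2 e x j).1 hc
    omega
  have h2 : encT e x (ans T e x (pad e x + tb e x.length)) ∈ T :=
    (stop_spec hO hT1 hT2 e x _).2 le_rfl
  have hrun : ∀ w, (SM e).run (join T O) (x.length ^ d + d) w ((SM e).init x) =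
      sc e (.fin (bit T (encT e x (true :: ans T e x (pad e x + tb e x.length)))))
        (false :: encT e x (true :: ans T e x (pad e x + tb e x.length))) := by
    intro w
    have hr := sm_run e T O x _ h1 h2 w
    rw [(SM e).run_of_le (join T O) (hd x.length) w]
    · exact hr
    · have hr' := hr
      rw [pad] at hr'
      rw [hr']
      exact ⟨_, rfl⟩
  constructor
  · intro w
    rw [hrun]
    exact ⟨_, rfl⟩
  · rw [he x]
    constructor
    · intro h
      refine ⟨fun _ => false, ?_⟩
      rw [hrun]
      change Act.halt _ = Act.halt true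
      rw [bit_eq_true.2 ((final_spec hO hT1 hT2 e x).2 (search_correct hO hT1 hT2 e x h))]
    · rintro ⟨w, hw⟩
      rw [hrun] at hw
      have h3 : Act.halt (bit T (encT e x (true :: ans T e x (pad e x + tb e x.length)))) =
        (Act.halt true : Act (SQ e)) := hw
      rw [Act.halt.injEq, bit_eq_true] at h3
      exact ⟨_, (final_spec hO hT1 hT2 e x).1 h3⟩

end Pool.Agent.H578R2
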