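import Mathlib

/-!
Oracle machines with finite control and stacks of bits, and the classes `P` and `NP` relative to
an oracle.
-/

namespace Pool.Agent.H578R2

/-- What an oracle machine with set `Q` of control states does in a given control state. The
storage consists of stacks of bits, numbered by natural numbers (a work tape is a pair of
stacks). A control state touches at most one stack, so a machine with finitely many control
states uses only finitely many stacks. -/
inductive Act (Q : Type) : Type
  /-- put the bit `b` on top of stack `k` and go to `q` -/
  | push (k : ℕ) (b : Bool) (q : Q) : Act Q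
  /-- remove the top bit of stack `k`, if there is one, and go to `q` -/
  | pop (k : ℕ) (q : Q) : Act Q
  /-- read the top bit of stack `k` (`none` if the stack is empty) and branch on it -/
  | read (k : ℕ) (q : Option Bool → Q) : Act Q
  /-- ask whether the string on stack `k` belongs to the oracle and branch on the answer -/
  | ask (k : ℕ) (q : Bool → Q) : Act Q
  /-- nondeterministic choice -/
  | guess (q : Bool → Q) : Act Q
  /-- halt and accept (`true`) or reject (`false`) -/
  | halt (acc : Bool) : Act Q

/-- A nondeterministic oracle machine: a finite set of control states, a start state, and for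
every control state the action done there. -/
structure Machine : Type 1 where
  /-- the control states -/
  Q : Type
  /-- there are finitely many of them -/
  fin : Finite Q
  /-- the start state -/
  start : Q
  /-- the action of every control state -/
  act : Q → Act Q

/-- A configuration: control state and contents of the stacks (top bit first). -/
abbrev Machine.Config (M : Machine) : Type := M.Q × (ℕ → List Bool)

open Classical in
/-- One step with oracle `A`, where `g` is the bit used if the step is a nondeterministic
choice. A halted machine stays as it is. -/
noncomputable def Machine.step (M : Machine) (A : Set (List Bool)) (g : Bool)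
    (c : M.Config) : M.Config :=
  match M.act c.1 with
  | .push k b q => (q, Function.update c.2 k (b :: c.2 k))
  | .pop k q => (q, Function.update c.2 k (c.2 k).tail)
  | .read k q => (q (c.2 k).head?, c.2)
  | .ask k q => (q (decide (c.2 k ∈ A)), c.2)
  | .guess q => (q g, c.2)
  | .halt _ => c

/-- The configuration after `t` steps from `c`, if the nondeterministic choices are made by
the bits `w 0, w 1, …` (one bit for every step). -/
noncomputable def Machine.run (M : Machine) (A : Set (List Bool)) :
    ℕ → (ℕ → Bool) → M.Config → M.Config
  | 0, _, c => c
  | t + 1, w, c => Machine.run M A t (fun i => w (i + 1)) (M.step A (w 0) c)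

/-- The initial configuration for the input string `x`: it is on stack `0`, all other stacks
are empty. -/
def Machine.init (M : Machine) (x : List Bool) : M.Config :=
  (M.start, fun k => if k = 0 then x else [])

/-- The configuration is a halting one. -/
def Machine.Halted (M : Machine) (c : M.Config) : Prop := ∃ b, M.act c.1 = .halt b

/-- The configuration is an accepting one. -/
def Machine.Accepts (M : Machine) (c : M.Config) : Prop := M.act c.1 = .halt true

/-- The machine is deterministic: no control state makes a nondeterministic choice. -/
def Machine.Det (M : Machine) : Prop := ∀ (q : M.Q) (f : Bool → M.Q), M.act q ≠ .guess f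

/-- The class `NP` relative to the oracle `A`: some nondeterministic machine with oracle `A`
halts on every input `x` on all computation paths within `|x| ^ d + d` steps, and has an
accepting path exactly for the members of the language. -/
def InNP (A : Set (List Bool)) (L : Set (List Bool)) : Prop :=
  ∃ (M : Machine) (d : ℕ), ∀ x : List Bool,
    (∀ w : ℕ → Bool, M.Halted (M.run A (x.length ^ d + d) w (M.init x))) ∧
    (x ∈ L ↔ ∃ w : ℕ → Bool, M.Accepts (M.run A (x.length ^ d + d) w (M.init x)))

/-- The class `P` relative to the oracle `A`: the same with a deterministic machine. -/
def InP (A : Set (List Bool)) (L : Set (List Bool)) : Prop :=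
  ∃ (M : Machine) (d : ℕ), M.Det ∧ ∀ x : List Bool,
    (∀ w : ℕ → Bool, M.Halted (M.run A (x.length ^ d + d) w (M.init x))) ∧
    (x ∈ L ↔ ∃ w : ℕ → Bool, M.Accepts (M.run A (x.length ^ d + d) w (M.init x)))

/-- The join of two oracles: a machine with this oracle has access to both. -/
def join (T O : Set (List Bool)) : Set (List Bool) :=
  {y | (∃ x ∈ T, y = false :: x) ∨ (∃ x ∈ O, y = true :: x)}

/-- `S ≤_T^p T` relative to `O`: the set `S` is decided by a deterministic polynomial time
machine which has access to the oracles `T` and `O`. -/
def TRed (O S T : Set (List Bool)) : Prop := InP (join T O) S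

/-- `NP` relative to `O` has the shrinking property. -/
def Shrinking (O : Set (List Bool)) : Prop :=
  ∀ A B : Set (List Bool), InNP O A → InNP O B → ∃ A' B' : Set (List Bool),
    InNP O A' ∧ InNP O B' ∧ A' ⊆ A ∧ B' ⊆ B ∧ A' ∩ B' = ∅ ∧ A' ∪ B' = A ∪ B

/-- `(A, B)` is a disjoint NP-pair relative to `O`. -/
def DisjointNPPair (O A B : Set (List Bool)) : Prop :=
  InNP O A ∧ InNP O B ∧ A.Nonempty ∧ B.Nonempty ∧ A ∩ B = ∅

/-- `S` is a separator of `(A, B)`. -/
def Separates (A B S : Set (List Bool)) : Prop := A ⊆ S ∧ B ∩ S = ∅

/-- `(A, B) ≤_T^pp (C, D)` relative to `O`: every separator `T` of `(C, D)` computes, with a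
deterministic polynomial time machine, some separator `S` of `(A, B)`. -/
def PPRed (O A B C D : Set (List Bool)) : Prop :=
  ∀ T, Separates C D T → ∃ S, Separates A B S ∧ TRed O S T

/-- The disjoint pair `(A, B)` is NP-hard relative to `O`: `(L, Lᶜ) ≤_T^pp (A, B)` for every
`L` in `NP` relative to `O`; in particular this holds for the `≤_m^p`-complete sets `L`. -/
def NPHardPair (O A B : Set (List Bool)) : Prop :=
  ∀ L : Set (List Bool), InNP O L → PPRed O L Lᶜ A B

end Pool.Agent.H578R2
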