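import Pool.Agent.H306R2.RZ.Defs

/-!
# Project RZ, task E5: two dimensional summation by parts
-/

namespace Pool.Agent.H578R2.RZE5

open Finset Filter Topology MeasureTheory
open Pool.Agent.H306R2.RZ

/-- summation by parts in one variable -/
theorem abel (A φ : ℕ → ℝ) (N : ℕ) :
    ∑ a ∈ Icc 1 N, A a * φ a =
      ∑ i ∈ Icc 1 N, (∑ a ∈ Icc 1 i, A a) * (φ i - φ (i + 1)) +
        (∑ a ∈ Icc 1 N, A a) * φ (N + 1) := by
  induction N with
  | zero => simp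
  | succ N ih =>
    rw [Finset.sum_Icc_succ_top (by omega), ih, Finset.sum_Icc_succ_top (by omega),
      Finset.sum_Icc_succ_top (a := 1) (b := N) (by omega) (f := A)]
    ring

theorem E5 (A φ : ℕ → ℕ → ℝ) (N : ℕ) (h1 : ∀ a b, N < a → φ a b = 0) (h2 : ∀ a b, N < b → φ a b = 0) :
    ∑ a ∈ Icc 1 N, ∑ b ∈ Icc 1 N, A a b * φ a b =
      ∑ i ∈ Icc 1 N, ∑ j ∈ Icc 1 N, (∑ a ∈ Icc 1 i, ∑ b ∈ Icc 1 j, A a b) *
        (φ (i + 1) (j + 1) - φ (i + 1) j - φ i (j + 1) + φ i j) := by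
  have e1 : ∀ a, ∑ b ∈ Icc 1 N, A a b * φ a b =
      ∑ j ∈ Icc 1 N, (∑ b ∈ Icc 1 j, A a b) * (φ a j - φ a (j + 1)) := by
    intro a
    rw [abel (A a) (φ a) N, h2 a (N + 1) (by omega), mul_zero, add_zero]
  simp_rw [e1]
  rw [Finset.sum_comm]
  conv_rhs => rw [Finset.sum_comm]
  refine Finset.sum_congr rfl fun j _ => ?_
  rw [abel (fun a => ∑ b ∈ Icc 1 j, A a b) (fun a => φ a j - φ a (j + 1)) N,
    h1 (N + 1) j (by omega), h1 (N + 1) (j + 1) (by omega), sub_zero, mul_zero, add_zero]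
  refine Finset.sum_congr rfl fun i _ => ?_
  ring

end Pool.Agent.H578R2.RZE5
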