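import Pool.Agent.H578R2.Use

/-!
The statements coded by the oracle.
-/

namespace Pool.Agent.H578R2

/-- a list of answers `a` (newest first) on top of `r` -/
def encA : List Bool → List Bool → List Bool
  | [], r => false :: r
  | b :: a, r => true :: b :: encA a r

/-- the question after the answers `a` in the search for an accepting path of machine `e` on
input `x` -/
def encT (e : ℕ) (x a : List Bool) : List Bool := encA a (List.replicate e true ++ false :: x)

theorem encA_inj : ∀ (a r a' r' : List Bool), encA a r = encA a' r' → a = a' ∧ r = r'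
  | [], r, [], r', h => by
      simp only [encA, List.cons.injEq, true_and] at h
      exact ⟨rfl, h⟩
  | [], r, b' :: a', r', h => by simp [encA] at h
  | b :: a, r, [], r', h => by simp [encA] at h
  | b :: a, r, b' :: a', r', h => by
      simp only [encA, List.cons.injEq, true_and] at h
      obtain ⟨h1, h2⟩ := h
      obtain ⟨h3, h4⟩ := encA_inj a r a' r' h2
      subst h1; subst h3; subst h4
      exact ⟨rfl, rfl⟩

theorem replicate_inj : ∀ (e e' : ℕ) (x x' : List Bool),
    List.replicate e true ++ false :: x = List.replicate e' true ++ false :: x' → e = e' ∧ x = x'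
  | 0, 0, x, x', h => by simpa using h
  | 0, e' + 1, x, x', h => by simp [List.replicate_succ] at h
  | e + 1, 0, x, x', h => by simp [List.replicate_succ] at h
  | e + 1, e' + 1, x, x', h => by
      simp only [List.replicate_succ, List.cons_append, List.cons.injEq, true_and] at h
      obtain ⟨h1, h2⟩ := replicate_inj e e' x x' h
      exact ⟨by rw [h1], h2⟩

theorem encT_inj {e e' : ℕ} {x x' a a' : List Bool} (h : encT e x a = encT e' x' a') :
    e = e' ∧ x = x' ∧ a = a' := by
  obtain ⟨h1, h2⟩ := encA_inj _ _ _ _ h
  obtain ⟨h3, h4⟩ := replicate_inj _ _ _ _ h2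
  exact ⟨h3, h4, h1⟩

theorem encA_length : ∀ (a r : List Bool), (encA a r).length = 2 * a.length + r.length + 1
  | [], r => by simp [encA]
  | b :: a, r => by
      rw [encA, List.length_cons, List.length_cons, encA_length a r, List.length_cons]
      ring

theorem le_encT_length (e : ℕ) (x a : List Bool) : a.length ≤ (encT e x a).length := by
  rw [encT, encA_length]
  omega

/-- number of dummy rounds -/
noncomputable def pad (e : ℕ) (x : List Bool) : ℕ := (x.length + tb e x.length) ^ 2

/-- the guesses contained in the answers -/
noncomputable def wr (e : ℕ) (x a : List Bool) (i : ℕ) : Bool :=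
  a.reverse.getD (2 * (pad e x + i) + 1) false

/-- the two statements belonging to a question -/
def Psi (e : ℕ) (x a : List Bool) (b : Bool) (O : Set (List Bool)) : Prop :=
  (a.length % 2 = 0 ∧ (b = true ↔ pad e x + tb e x.length ≤ a.length / 2)) ∨
  (a.length % 2 = 1 ∧ pad e x ≤ a.length / 2 ∧ a.head? = some true ∧
    (b = true ↔ Acc e x (wr e x a) O)) ∨
  (a.length % 2 = 1 ∧ pad e x ≤ a.length / 2 ∧ a.head? = some false ∧
    ∃ w : ℕ → Bool, (∀ i < a.length / 2 - pad e x, w i = wr e x a i) ∧
      w (a.length / 2 - pad e x) = b ∧ Acc e x w O)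

/-- the two statements coded at `t` -/
def phi (b : Bool) (t : List Bool) (O : Set (List Bool)) : Prop :=
  ∃ (e : ℕ) (x a : List Bool), t = encT e x a ∧ Psi e x a b O

theorem phi_encT (b : Bool) (e : ℕ) (x a : List Bool) (O : Set (List Bool)) :
    phi b (encT e x a) O ↔ Psi e x a b O := by
  constructor
  · rintro ⟨e', x', a', h, hp⟩
    obtain ⟨rfl, rfl, rfl⟩ := encT_inj h
    exact hp
  · intro h
    exact ⟨e, x, a, rfl, h⟩

theorem loc_phi : Loc phi := by
  rintro b t O ⟨e, x, a, rfl, h⟩
  have hlen := le_encT_length e x a
  have hb : ∀ w : ℕ → Bool, pad e x ≤ a.length / 2 →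
      ∃ Q : Finset (List Bool), Q.card ^ 2 ≤ (encT e x a).length ∧
      (∀ s ∈ Q, s.length ^ 2 ≤ (encT e x a).length) ∧
      ∀ O', (∀ s ∈ Q, (s ∈ O' ↔ s ∈ O)) → (Acc e x w O' ↔ Acc e x w O) := by
    intro w hp
    obtain ⟨Q, h1, h2, h3⟩ := Acc.local e x w O
    have hp' : (x.length + tb e x.length) ^ 2 ≤ (encT e x a).length := by
      have : pad e x = (x.length + tb e x.length) ^ 2 := rfl
      omega
    refine ⟨Q, ?_, fun s hs => ?_, h3⟩
    · exact (Nat.pow_le_pow_left (h1.trans (Nat.le_add_left _ _)) 2).trans hp'
    · exact (Nat.pow_le_pow_left (h2 s hs) 2).trans hp'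
  rcases h with h | ⟨h1, h2, h3, h4⟩ | ⟨h1, h2, h3, w, h4, h5, h6⟩
  · exact ⟨∅, by simp, by simp, fun O' _ => ⟨e, x, a, rfl, Or.inl h⟩⟩
  · obtain ⟨Q, q1, q2, q3⟩ := hb (wr e x a) h2
    exact ⟨Q, q1, q2, fun O' hO' => ⟨e, x, a, rfl, Or.inr (Or.inl ⟨h1, h2, h3, by
      rw [q3 O' hO']; exact h4⟩)⟩⟩
  · obtain ⟨Q, q1, q2, q3⟩ := hb w h2
    exact ⟨Q, q1, q2, fun O' hO' => ⟨e, x, a, rfl, Or.inr (Or.inr ⟨h1, h2, h3, w, h4, h5,
      (q3 O' hO').2 h6⟩)⟩⟩

/-! ### The search guided by a separator -/

section Search

variable {O T : Set (List Bool)} (hO : Legal phi O)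
  (hT1 : ∀ t, Has (false, true) t O → t ∈ T) (hT2 : ∀ t, Has (false, false) t O → t ∉ T)

include hO hT1 hT2 in
theorem sep_spec {t : List Bool} {b : Bool} (h1 : phi b t O) (h2 : ¬ phi (!b) t O) :
    t ∈ T ↔ b = true := by
  have h := (hO t).2.2 b h1 h2
  cases b
  · simp only [Bool.false_eq_true, iff_false]
    exact hT2 t h
  · simp only [iff_true]
    exact hT1 t h

open Classical in
/-- the answer to a question, as a bit -/
noncomputable def bit (T : Set (List Bool)) (t : List Bool) : Bool := decide (t ∈ T)

theorem bit_eq_true {T : Set (List Bool)} {t : List Bool} : bit T t = true ↔ t ∈ T := by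
  simp [bit]

/-- the answers collected in `j` rounds -/
noncomputable def ans (T : Set (List Bool)) (e : ℕ) (x : List Bool) : ℕ → List Bool
  | 0 => []
  | j + 1 => bit T (encT e x (false :: ans T e x j)) :: false :: ans T e x j

/-- the data bit of round `j` -/
noncomputable def dat (T : Set (List Bool)) (e : ℕ) (x : List Bool) (j : ℕ) : Bool :=
  bit T (encT e x (false :: ans T e x j))

theorem ans_length (T : Set (List Bool)) (e : ℕ) (x : List Bool) (j : ℕ) :
    (ans T e x j).length = 2 * j := by
  induction j with
  | zero => rfl
  | succ j ih =>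
    rw [ans, List.length_cons, List.length_cons, ih]
    ring

theorem ans_getD (T : Set (List Bool)) (e : ℕ) (x : List Bool) (j i : ℕ) (h : i < j) (r : List Bool) :
    ((ans T e x j).reverse ++ r).getD (2 * i + 1) false = dat T e x i := by
  induction j generalizing r with
  | zero => omega
  | succ j ih =>
    rw [ans, List.reverse_cons, List.reverse_cons, List.append_assoc, List.append_assoc]
    by_cases hi : i < j
    · exact ih hi _
    · have hij : i = j := by omega
      subst hij
      rw [List.getD_append_right _ _ _ _ (by rw [List.length_reverse, ans_length]; omega),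
        List.length_reverse, ans_length]
      have : 2 * i + 1 - 2 * i = 1 := by omega
      rw [this]
      rfl

theorem wr_ans (T : Set (List Bool)) (e : ℕ) (x : List Bool) (j i : ℕ) (h : pad e x + i < j)
    (b : Bool) : wr e x (b :: ans T e x j) i = dat T e x (pad e x + i) := by
  rw [wr, List.reverse_cons]
  exact ans_getD T e x j _ h [b]

include hO hT1 hT2 in
theorem stop_spec (e : ℕ) (x : List Bool) (j : ℕ) :
    encT e x (ans T e x j) ∈ T ↔ pad e x + tb e x.length ≤ j := by
  have key : ∀ b : Bool, phi b (encT e x (ans T e x j)) O ↔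
      (b = true ↔ pad e x + tb e x.length ≤ j) := by
    intro b
    rw [phi_encT, Psi, ans_length]
    have h1 : 2 * j % 2 = 0 := by omega
    have h2 : 2 * j / 2 = j := by omega
    simp only [h1, h2, true_and]
    simp
  by_cases h : pad e x + tb e x.length ≤ j
  · have h1 := sep_spec hO hT1 hT2 ((key true).2 (by simp [h])) (fun hc => by
      have := (key _).1 hc
      simp [h] at this)
    rw [h1]
    simp [h]
  · have h1 := sep_spec hO hT1 hT2 ((key false).2 (by simp [h])) (fun hc => by
      have := (key _).1 hc
      simp [h] at this)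
    rw [h1]
    simp [h]

include hO hT1 hT2 in
theorem final_spec (e : ℕ) (x : List Bool) :
    encT e x (true :: ans T e x (pad e x + tb e x.length)) ∈ T ↔
      Acc e x (fun i => dat T e x (pad e x + i)) O := by
  have hacc : Acc e x (wr e x (true :: ans T e x (pad e x + tb e x.length))) O ↔
      Acc e x (fun i => dat T e x (pad e x + i)) O := by
    refine Acc.congr e x _ _ O fun i hi => ?_
    exact wr_ans T e x _ i (by omega) true
  have key : ∀ b : Bool, phi b (encT e x (true :: ans T e x (pad e x + tb e x.length))) O ↔
      (b = true ↔ Acc e x (fun i => dat T e x (pad e x + i)) O) := by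
    intro b
    rw [phi_encT, Psi, List.length_cons, ans_length, hacc]
    have h1 : (2 * (pad e x + tb e x.length) + 1) % 2 = 1 := by omega
    have h2 : (2 * (pad e x + tb e x.length) + 1) / 2 = pad e x + tb e x.length := by omega
    simp only [h1, h2, List.head?_cons]
    simp
  by_cases h : Acc e x (fun i => dat T e x (pad e x + i)) O
  · have h1 := sep_spec hO hT1 hT2 ((key true).2 (by simp [h])) (fun hc => by
      have := (key _).1 hc
      simp [h] at this)
    rw [h1]
    simp [h]
  · have h1 := sep_spec hO hT1 hT2 ((key false).2 (by simp [h])) (fun hc => by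
      have := (key _).1 hc
      simp [h] at this)
    rw [h1]
    simp [h]

include hO hT1 hT2 in
theorem search_correct (e : ℕ) (x : List Bool) (h : ∃ w, Acc e x w O) :
    Acc e x (fun i => dat T e x (pad e x + i)) O := by
  have key : ∀ i ≤ tb e x.length, ∃ w : ℕ → Bool,
      (∀ i' < i, w i' = dat T e x (pad e x + i')) ∧ Acc e x w O := by
    intro i
    induction i with
    | zero =>
      intro _
      obtain ⟨w, hw⟩ := h
      exact ⟨w, by intro i' hi'; omega, hw⟩
    | succ i ih =>
      intro hi
      obtain ⟨w, hw1, hw2⟩ := ih (by omega)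
      -- the question of round `pad + i`
      have hphi : ∀ b : Bool, phi b (encT e x (false :: ans T e x (pad e x + i))) O ↔
          ∃ w : ℕ → Bool, (∀ i' < i, w i' = dat T e x (pad e x + i')) ∧ w i = b ∧
            Acc e x w O := by
        intro b
        rw [phi_encT, Psi, List.length_cons, ans_length]
        have h1 : (2 * (pad e x + i) + 1) % 2 = 1 := by omega
        have h2 : (2 * (pad e x + i) + 1) / 2 = pad e x + i := by omega
        have h3 : pad e x + i - pad e x = i := by omega
        simp only [h1, h2, h3, List.head?_cons]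
        have h4 : ∀ i' < i, wr e x (false :: ans T e x (pad e x + i)) i' =
            dat T e x (pad e x + i') := fun i' hi' => wr_ans T e x _ i' (by omega) false
        constructor
        · rintro (h | h | ⟨-, -, -, w, h5, h6, h7⟩)
          · exact absurd h.1 (by norm_num)
          · exact absurd h.2.2.1 (by simp)
          · exact ⟨w, fun i' hi' => (h5 i' hi').trans (h4 i' hi'), h6, h7⟩
        · rintro ⟨w, h5, h6, h7⟩
          exact Or.inr (Or.inr ⟨by simp, by omega, by simp, w,
            fun i' hi' => (h5 i' hi').trans (h4 i' hi').symm, h6, h7⟩)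
      have hgoal : ∀ b : Bool, dat T e x (pad e x + i) = b →
          phi b (encT e x (false :: ans T e x (pad e x + i))) O →
          ∃ w : ℕ → Bool, (∀ i' < i + 1, w i' = dat T e x (pad e x + i')) ∧ Acc e x w O := by
        intro b hb hp
        obtain ⟨w, h5, h6, h7⟩ := (hphi b).1 hp
        refine ⟨w, fun i' hi' => ?_, h7⟩
        by_cases hc : i' < i
        · exact h5 i' hc
        · have : i' = i := by omega
          subst this
          rw [h6, hb]
      by_cases hd : phi (dat T e x (pad e x + i)) (encT e x (false :: ans T e x (pad e x + i))) O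
      · exact hgoal _ rfl hd
      · -- then the other statement is true and the separator answers accordingly
        have h8 : phi (w i) (encT e x (false :: ans T e x (pad e x + i))) O :=
          (hphi _).2 ⟨w, hw1, rfl, hw2⟩
        have hne : w i ≠ dat T e x (pad e x + i) := fun hc => hd (hc ▸ h8)
        have hnot : (!(w i)) = dat T e x (pad e x + i) := by
          cases h9 : w i <;> cases h10 : dat T e x (pad e x + i) <;> simp_all
        have h11 := sep_spec hO hT1 hT2 h8 (by rw [hnot]; exact hd)
        have h12 : dat T e x (pad e x + i) = w i := by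
          rw [dat]
          cases h13 : w i
          · rw [h13] at h11
            simp only [Bool.false_eq_true, iff_false] at h11
            rw [← Bool.not_eq_true, bit_eq_true]
            exact h11
          · rw [h13] at h11
            simp only [iff_true] at h11
            rw [bit_eq_true]
            exact h11
        exact absurd h12.symm hne
  obtain ⟨w, hw1, hw2⟩ := key (tb e x.length) le_rfl
  exact (Acc.congr e x w _ O hw1).1 hw2

end Search

end Pool.Agent.H578R2
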