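import Pool.Agent.H578R2.OM
import Pool.Agent.H578R2.Base

/-!
Runs of oracle machines: composition, dependence on the oracle and on the guesses; enumeration
of the machines.
-/

namespace Pool.Agent.H578R2

theorem Machine.run_add (M : Machine) (A : Set (List Bool)) : ∀ (t t' : ℕ) (w : ℕ → Bool)
    (c : M.Config), M.run A (t + t') w c = M.run A t' (fun i => w (i + t)) (M.run A t w c)
  | 0, t', w, c => by simp [Machine.run]
  | t + 1, t', w, c => by
      have h : t + 1 + t' = (t + t') + 1 := by omega
      rw [h, Machine.run, Machine.run, Machine.run_add M A t t']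
      congr 1

theorem Machine.run_one (M : Machine) (A : Set (List Bool)) (w : ℕ → Bool)
    (c : M.Config) : M.run A 1 w c = M.step A (w 0) c := rfl

theorem Machine.step_halted (M : Machine) (A : Set (List Bool)) (g : Bool) {c : M.Config}
    (h : M.Halted c) : M.step A g c = c := by
  obtain ⟨b, hb⟩ := h
  rw [Machine.step, hb]

theorem Machine.run_halted (M : Machine) (A : Set (List Bool)) : ∀ (t : ℕ) (w : ℕ → Bool)
    {c : M.Config}, M.Halted c → M.run A t w c = c
  | 0, _, _, _ => rfl
  | t + 1, w, c, h => by
      rw [Machine.run, M.step_halted A (w 0) h]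
      exact Machine.run_halted M A t _ h

theorem Machine.run_of_le (M : Machine) (A : Set (List Bool)) {t t' : ℕ} (htt : t ≤ t')
    (w : ℕ → Bool) {c : M.Config} (h : M.Halted (M.run A t w c)) :
    M.run A t' w c = M.run A t w c := by
  obtain ⟨k, rfl⟩ := Nat.exists_eq_add_of_le htt
  rw [M.run_add A, M.run_halted A k _ h]

theorem Machine.run_congr_guess (M : Machine) (A : Set (List Bool)) : ∀ (t : ℕ)
    (w w' : ℕ → Bool) (c : M.Config), (∀ i < t, w i = w' i) → M.run A t w c = M.run A t w' c
  | 0, _, _, _, _ => rfl
  | t + 1, w, w', c, h => by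
      rw [Machine.run, Machine.run, h 0 (by omega)]
      exact Machine.run_congr_guess M A t _ _ _ fun i hi => h (i + 1) (by omega)

/-- the strings asked during `t` steps -/
noncomputable def Machine.queries (M : Machine) (A : Set (List Bool)) :
    ℕ → (ℕ → Bool) → M.Config → Finset (List Bool)
  | 0, _, _ => ∅
  | t + 1, w, c => (match M.act c.1 with
      | .ask k _ => {c.2 k}
      | _ => ∅) ∪ Machine.queries M A t (fun i => w (i + 1)) (M.step A (w 0) c)

theorem Machine.card_queries (M : Machine) (A : Set (List Bool)) : ∀ (t : ℕ) (w : ℕ → Bool)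
    (c : M.Config), (M.queries A t w c).card ≤ t
  | 0, _, _ => by simp [Machine.queries]
  | t + 1, w, c => by
      rw [Machine.queries]
      refine (Finset.card_union_le _ _).trans ?_
      have h := Machine.card_queries M A t (fun i => w (i + 1)) (M.step A (w 0) c)
      rw [add_comm t 1]
      refine Nat.add_le_add ?_ h
      split <;> simp

theorem Machine.step_length (M : Machine) (A : Set (List Bool)) (g : Bool) (c : M.Config)
    (l : ℕ) (h : ∀ k, (c.2 k).length ≤ l) (k : ℕ) : ((M.step A g c).2 k).length ≤ l + 1 := by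
  rw [Machine.step]
  split
  · rename_i k' b q _
    by_cases hk : k = k'
    · subst hk
      simp only [Function.update_self, List.length_cons]
      exact Nat.succ_le_succ (h k)
    · simp only [Function.update_of_ne hk]
      exact (h k).trans (Nat.le_succ _)
  · rename_i k' q _
    by_cases hk : k = k'
    · subst hk
      simp only [Function.update_self, List.length_tail]
      have := h k
      omega
    · simp only [Function.update_of_ne hk]
      exact (h k).trans (Nat.le_succ _)
  · exact (h k).trans (Nat.le_succ _)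
  · exact (h k).trans (Nat.le_succ _)
  · exact (h k).trans (Nat.le_succ _)
  · exact (h k).trans (Nat.le_succ _)

theorem Machine.queries_length (M : Machine) (A : Set (List Bool)) : ∀ (t : ℕ) (w : ℕ → Bool)
    (c : M.Config) (l : ℕ), (∀ k, (c.2 k).length ≤ l) →
    ∀ s ∈ M.queries A t w c, s.length ≤ l + t
  | 0, _, _, _, _ => by simp [Machine.queries]
  | t + 1, w, c, l, h => by
      intro s hs
      rw [Machine.queries, Finset.mem_union] at hs
      rcases hs with hs | hs
      · have key : ∃ k, s = c.2 k := by
          revert hs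
          cases M.act c.1 with
          | ask k q => exact fun hs => ⟨k, Finset.mem_singleton.1 hs⟩
          | push k b q => exact fun hs => absurd hs (Finset.notMem_empty _)
          | pop k q => exact fun hs => absurd hs (Finset.notMem_empty _)
          | read k q => exact fun hs => absurd hs (Finset.notMem_empty _)
          | guess q => exact fun hs => absurd hs (Finset.notMem_empty _)
          | halt b => exact fun hs => absurd hs (Finset.notMem_empty _)
        obtain ⟨k, rfl⟩ := key
        exact (h _).trans (Nat.le_add_right _ _)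
      · have := Machine.queries_length M A t (fun i => w (i + 1)) (M.step A (w 0) c) (l + 1)
          (M.step_length A (w 0) c l h) s hs
        omega

open Classical in
theorem Machine.step_congr_oracle (M : Machine) (A A' : Set (List Bool)) (g : Bool)
    (c : M.Config) (h : ∀ k q, M.act c.1 = .ask k q → (c.2 k ∈ A' ↔ c.2 k ∈ A)) :
    M.step A' g c = M.step A g c := by
  unfold Machine.step
  cases hc : M.act c.1 with
  | ask k q =>
    have h0 := h k q hc
    have h1 : (decide (c.2 k ∈ A')) = (decide (c.2 k ∈ A)) := by
      by_cases h2 : c.2 k ∈ A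
      · rw [decide_eq_true h2, decide_eq_true (h0.2 h2)]
      · rw [decide_eq_false h2, decide_eq_false (fun h3 => h2 (h0.1 h3))]
    change (q (decide (c.2 k ∈ A')), c.2) = (q (decide (c.2 k ∈ A)), c.2)
    rw [h1]
  | push k b q => rfl
  | pop k q => rfl
  | read k q => rfl
  | guess q => rfl
  | halt b => rfl

theorem Machine.run_congr_oracle (M : Machine) (A A' : Set (List Bool)) : ∀ (t : ℕ)
    (w : ℕ → Bool) (c : M.Config), (∀ s ∈ M.queries A t w c, (s ∈ A' ↔ s ∈ A)) →
    M.run A' t w c = M.run A t w c
  | 0, _, _, _ => rfl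
  | t + 1, w, c, h => by
      have h1 : M.step A' (w 0) c = M.step A (w 0) c := by
        refine M.step_congr_oracle A A' (w 0) c fun k q hk => h (c.2 k) ?_
        rw [Machine.queries, Finset.mem_union, hk]
        exact Or.inl (Finset.mem_singleton_self _)
      rw [Machine.run, Machine.run, h1]
      refine Machine.run_congr_oracle M A A' t _ _ fun s hs => h s ?_
      rw [Machine.queries, Finset.mem_union]
      exact Or.inr hs

theorem Machine.init_length (M : Machine) (x : List Bool) (k : ℕ) :
    ((M.init x).2 k).length ≤ x.length := by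
  change (if k = 0 then x else []).length ≤ x.length
  split
  · exact le_rfl
  · simp

/-! ### Enumeration -/

/-- change the names of the control states -/
def Act.map {Q Q' : Type} (f : Q → Q') : Act Q → Act Q'
  | .push k b q => .push k b (f q)
  | .pop k q => .pop k (f q)
  | .read k q => .read k (fun o => f (q o))
  | .ask k q => .ask k (fun b => f (q b))
  | .guess q => .guess (fun b => f (q b))
  | .halt b => .halt b

/-- a machine with control states `Fin n` -/
structure FMach : Type where
  n : ℕ
  start : Fin n
  act : Fin n → Act (Fin n)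

def FMach.toM (F : FMach) : Machine := ⟨Fin F.n, inferInstance, F.start, F.act⟩

def Act.enc {Q : Type} : Act Q → (ℕ × Bool × Q) ⊕ (ℕ × Q) ⊕ (ℕ × (Option Bool → Q)) ⊕
    (ℕ × (Bool → Q)) ⊕ (Bool → Q) ⊕ Bool
  | .push k b q => .inl (k, b, q)
  | .pop k q => .inr (.inl (k, q))
  | .read k q => .inr (.inr (.inl (k, q)))
  | .ask k q => .inr (.inr (.inr (.inl (k, q))))
  | .guess q => .inr (.inr (.inr (.inr (.inl q))))
  | .halt b => .inr (.inr (.inr (.inr (.inr b))))

theorem Act.enc_inj {Q : Type} : Function.Injective (Act.enc (Q := Q)) := by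
  intro a b h
  cases a <;> cases b <;> simp_all [Act.enc]

instance {Q : Type} [Countable Q] : Countable (Act Q) := Act.enc_inj.countable

instance : Countable FMach := by
  have h : Function.Injective (fun F : FMach =>
      (⟨F.n, F.start, F.act⟩ : Σ n : ℕ, Fin n × (Fin n → Act (Fin n)))) := by
    rintro ⟨n, s, a⟩ ⟨n', s', a'⟩ h
    simp only [Sigma.mk.injEq] at h
    obtain ⟨h1, h2⟩ := h
    subst h1
    simp only [heq_eq_eq, Prod.mk.injEq] at h2
    obtain ⟨rfl, rfl⟩ := h2
    rfl
  exact h.countable

instance : Nonempty FMach := ⟨⟨1, 0, fun _ => .halt true⟩⟩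

/-- rename the control state of a configuration -/
def Machine.cm {M M' : Machine} (e : M.Q → M'.Q) (c : M.Config) : M'.Config := (e c.1, c.2)

theorem Machine.step_cm {M M' : Machine} (e : M.Q → M'.Q)
    (h : ∀ q, M'.act (e q) = (M.act q).map e) (A : Set (List Bool)) (g : Bool) (c : M.Config) :
    M'.step A g (Machine.cm e c) = Machine.cm e (M.step A g c) := by
  unfold Machine.step
  simp only [Machine.cm, h]
  cases M.act c.1 <;> rfl

theorem Machine.run_cm {M M' : Machine} (e : M.Q → M'.Q)
    (h : ∀ q, M'.act (e q) = (M.act q).map e) (A : Set (List Bool)) : ∀ (t : ℕ) (w : ℕ → Bool)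
    (c : M.Config), M'.run A t w (Machine.cm e c) = Machine.cm e (M.run A t w c)
  | 0, _, _ => rfl
  | t + 1, w, c => by
      rw [Machine.run, Machine.run, Machine.step_cm e h, Machine.run_cm e h A t]

theorem exists_fmach (M : Machine) : ∃ F : FMach, ∀ (A : Set (List Bool)) (t : ℕ) (w : ℕ → Bool)
    (x : List Bool),
    (F.toM.Accepts (F.toM.run A t w (F.toM.init x)) ↔ M.Accepts (M.run A t w (M.init x))) := by
  classical
  have := M.fin
  have := Fintype.ofFinite M.Q
  let e := Fintype.equivFin M.Q
  let F : FMach := ⟨Fintype.card M.Q, e M.start, fun q => (M.act (e.symm q)).map e⟩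
  let e' : M.Q → F.toM.Q := e
  have hact : ∀ q, F.toM.act (e' q) = (M.act q).map e' := by
    intro q
    change (M.act (e.symm (e q))).map e = _
    rw [Equiv.symm_apply_apply]
    rfl
  refine ⟨F, fun A t w x => ?_⟩
  have h1 : F.toM.init x = Machine.cm e' (M.init x) := rfl
  rw [h1, Machine.run_cm e' hact, Machine.Accepts, Machine.Accepts]
  simp only [Machine.cm, hact]
  cases M.act _ <;> simp [Act.map]

theorem exists_enum : ∃ mach : ℕ → FMach × ℕ, Function.Surjective mach :=
  exists_surjective_nat (FMach × ℕ)

/-- an enumeration of all machines with exponents -/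
noncomputable def mach : ℕ → FMach × ℕ := exists_enum.choose

theorem mach_surj : Function.Surjective mach := exists_enum.choose_spec

/-- machine number `e` -/
noncomputable def mm (e : ℕ) : Machine := (mach e).1.toM

/-- its time bound -/
noncomputable def tb (e : ℕ) (n : ℕ) : ℕ := n ^ (mach e).2 + (mach e).2

/-- machine number `e` accepts `x` with guesses `w` and oracle `O` -/
def Acc (e : ℕ) (x : List Bool) (w : ℕ → Bool) (O : Set (List Bool)) : Prop :=
  (mm e).Accepts ((mm e).run O (tb e x.length) w ((mm e).init x))

theorem InNP.exists_index {O L : Set (List Bool)} (h : InNP O L) :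
    ∃ e, ∀ x, (x ∈ L ↔ ∃ w, Acc e x w O) := by
  obtain ⟨M, d, h⟩ := h
  obtain ⟨F, hF⟩ := exists_fmach M
  obtain ⟨e, he⟩ := mach_surj (F, d)
  refine ⟨e, fun x => ?_⟩
  rw [(h x).2]
  have h1 : mm e = F.toM := by rw [mm, he]
  have h2 : tb e x.length = x.length ^ d + d := by rw [tb, he]
  refine exists_congr fun w => ?_
  rw [Acc, h2, h1]
  exact (hF O _ w x).symm

theorem PB.tb (e : ℕ) : PB (H578R2.tb e) := (PB.id.pow _).add (PB.const _)

theorem Acc.local (e : ℕ) (x : List Bool) (w : ℕ → Bool) (O : Set (List Bool)) :
    ∃ Q : Finset (List Bool), Q.card ≤ tb e x.length ∧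
      (∀ s ∈ Q, s.length ≤ x.length + tb e x.length) ∧
      ∀ O', (∀ s ∈ Q, (s ∈ O' ↔ s ∈ O)) → (Acc e x w O' ↔ Acc e x w O) := by
  refine ⟨(mm e).queries O (tb e x.length) w ((mm e).init x), (mm e).card_queries _ _ _ _,
    (mm e).queries_length _ _ _ _ _ ((mm e).init_length x), fun O' h => ?_⟩
  rw [Acc, Acc, (mm e).run_congr_oracle O O' _ _ _ h]

theorem PLoc_acc (e : ℕ) : PLoc (fun x O => ∃ w, Acc e x w O)
    (fun n => n + H578R2.tb e n) := by
  rintro x O ⟨w, hw⟩
  obtain ⟨Q, h1, h2, h3⟩ := Acc.local e x w O
  exact ⟨Q, h1.trans (Nat.le_add_left _ _), h2, fun O' h => ⟨w, (h3 O' h).2 hw⟩⟩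

theorem Acc.congr (e : ℕ) (x : List Bool) (w w' : ℕ → Bool) (O : Set (List Bool))
    (h : ∀ i < tb e x.length, w i = w' i) : Acc e x w O ↔ Acc e x w' O := by
  rw [Acc, Acc, (mm e).run_congr_guess O _ w w' _ h]

end Pool.Agent.H578R2
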